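import Pool.Agent.Lib.MP_97e538_al.StepD

/-!
# The braid group `B_{2g+2}`, its action on `Sym^k H_1(Σ_g; ℝ)`, and 1-cocycles
-/

open MvPolynomial

namespace Pool.Agent.Lib.BrSym

noncomputable section

/-- Artin's relators on the generators `σ_0, ..., σ_{n-1}`: the far commutation relations and
the braid relations. -/
def artinRels (n : ℕ) : Set (FreeGroup (Fin n)) :=
  {w | ∃ i j : Fin n, i.1 + 2 ≤ j.1 ∧
      w = FreeGroup.of i * FreeGroup.of j * (FreeGroup.of j * FreeGroup.of i)⁻¹} ∪
  {w | ∃ i j : Fin n, j.1 = i.1 + 1 ∧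
      w = FreeGroup.of i * FreeGroup.of j * FreeGroup.of i *
        (FreeGroup.of j * FreeGroup.of i * FreeGroup.of j)⁻¹}

/-- The Artin braid group with `n` standard generators, that is, the braid group `B_{n+1}`. -/
abbrev Braid (n : ℕ) : Type := PresentedGroup (artinRels n)

/-- `Sym^k (V_{2g} ⊗ ℝ)`: the homogeneous polynomials of degree `k` in the classes
`X_0, ..., X_{2g-1}` of the first `2g` curves of the chain. -/
abbrev Wsp (g k : ℕ) : Submodule ℝ (MvPolynomial (Fin (2 * g)) ℝ) :=
  homogeneousSubmodule (Fin (2 * g)) ℝ k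

/-- The Dehn twist about `c_i` as a linear automorphism of `Sym^k`. -/
def twEquiv (g k : ℕ) (i : Fin (2 * g + 1)) : Wsp g k ≃ₗ[ℝ] Wsp g k where
  toFun v := ⟨twist g i v.1, twist_hom i v.2⟩
  invFun v := ⟨twistInv g i v.1, twistInv_hom i v.2⟩
  map_add' v w := Subtype.ext (map_add (twist g i) v.1 w.1)
  map_smul' a v := Subtype.ext (map_smul (twist g i) a v.1)
  left_inv v := Subtype.ext (twistInv_twist i (by omega) v.1)
  right_inv v := Subtype.ext (twist_twistInv i (by omega) v.1)

theorem twEquiv_val (g k : ℕ) (i : Fin (2 * g + 1)) (v : Wsp g k) :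
    (twEquiv g k i v).1 = twist g i v.1 := rfl

/-- The action of `B_{2g+2}` on `Sym^k`: `σ_i` acts by the Dehn twist about `c_i`. -/
def symHom (g k : ℕ) : Braid (2 * g + 1) →* (Wsp g k ≃ₗ[ℝ] Wsp g k) :=
  PresentedGroup.toGroup (f := fun i : Fin (2 * g + 1) => twEquiv g k i) (by
    rintro r (⟨i, j, hij, rfl⟩ | ⟨i, j, hij, rfl⟩)
    · have hi := i.2
      have hj := j.2
      simp only [map_mul, map_inv, FreeGroup.lift_apply_of]
      rw [mul_inv_eq_one]
      ext v : 2
      simp only [LinearEquiv.mul_apply, twEquiv_val]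
      exact twist_comm (by omega) (by omega) (om_far (by omega)) v.1
    · have hj := j.2
      simp only [map_mul, map_inv, FreeGroup.lift_apply_of]
      rw [mul_inv_eq_one]
      ext v : 2
      simp only [LinearEquiv.mul_apply, twEquiv_val]
      rw [hij]
      exact twist_braid (by omega) v.1)

/-- `Sym^k (V_{2g} ⊗ ℝ)` as a representation of `B_{2g+2}`. -/
def symRep (g k : ℕ) : Representation ℝ (Braid (2 * g + 1)) (Wsp g k) :=
  (LinearEquiv.automorphismGroup.toLinearMapMonoidHom).comp (symHom g k)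

theorem symRep_of (g k : ℕ) (i : Fin (2 * g + 1)) (v : Wsp g k) :
    (symRep g k (PresentedGroup.of i) v).1 = twist g i v.1 := by
  show ((symHom g k (PresentedGroup.of i)) v).1 = _
  unfold symHom
  rw [PresentedGroup.toGroup.of, twEquiv_val]

/-- The same as an object of `Rep`. -/
abbrev SymV (g k : ℕ) : Rep ℝ (Braid (2 * g + 1)) := Rep.of (symRep g k)

end

end Pool.Agent.Lib.BrSym
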