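import Pool.Agent.Lib.MP_97e538_al.Defs

open MvPolynomial

namespace Pool.Agent.Lib.BrSym

noncomputable section

variable {g : ℕ}

/-- directional derivative along the functional `om i` -/
def dd (g i : ℕ) : Derivation ℝ (MvPolynomial (Fin (2 * g)) ℝ) (MvPolynomial (Fin (2 * g)) ℝ) :=
  mkDerivation ℝ fun j => C (om i j)

theorem om_self (i : ℕ) : om i i = 0 := by
  unfold om; simp

theorem om_succ (i : ℕ) : om i (i + 1) = 1 := by
  unfold om; simp

theorem om_succ' (i : ℕ) : om (i + 1) i = -1 := by
  unfold om
  rw [if_neg (by omega), if_pos rfl]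

theorem om_far {i j : ℕ} (h : i + 2 ≤ j ∨ j + 2 ≤ i) : om i j = 0 := by
  unfold om
  rw [if_neg (by omega), if_neg (by omega)]

theorem om_anti (i j : ℕ) : om i j = -om j i := by
  unfold om
  split_ifs <;> first | omega | simp

theorem cls_lt {i : ℕ} (h : i < 2 * g) : cls g i = X ⟨i, h⟩ := by
  unfold cls; rw [dif_pos h]

theorem cls_last : cls g (2 * g) = -∑ j : Fin g, X ⟨2 * j.1, by omega⟩ := by
  unfold cls; rw [dif_neg (by omega)]

/-- the sum of the `om i` over the even indices vanishes -/
theorem sum_om (i : ℕ) (hi : i ≤ 2 * g) :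
    ∑ j ∈ Finset.range g, om i (2 * j) = -om i (2 * g) := by
  rcases Nat.even_or_odd' i with ⟨r, rfl | rfl⟩
  · rw [Finset.sum_eq_zero]
    · unfold om; rw [if_neg (by omega), if_neg (by omega)]; simp
    · intro j _
      unfold om; rw [if_neg (by omega), if_neg (by omega)]
  · have hr : r < g := by omega
    rcases Nat.lt_or_ge (r + 1) g with h | h
    · rw [Finset.sum_eq_add (r + 1) r (by omega)]
      · unfold om
        rw [if_pos (by omega), if_neg (by omega), if_pos (by omega), if_neg (by omega),
          if_neg (by omega)]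
        norm_num
      · intro j _ hj
        unfold om
        rw [if_neg (by omega), if_neg (by omega)]
      · intro hh; exact absurd (Finset.mem_range.2 h) hh
      · intro hh; exact absurd (Finset.mem_range.2 hr) hh
    · have hg : g = r + 1 := by omega
      rw [Finset.sum_eq_single r]
      · unfold om
        rw [if_neg (by omega), if_pos (by omega), if_pos (by omega)]
      · intro j hj hne
        have := Finset.mem_range.1 hj
        unfold om
        rw [if_neg (by omega), if_neg (by omega)]
      · intro hh; exact absurd (Finset.mem_range.2 hr) hh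

theorem dd_X (i : ℕ) (j : Fin (2 * g)) : dd g i (X j) = C (om i j) := by
  unfold dd; rw [mkDerivation_X]

theorem dd_C (i : ℕ) (a : ℝ) : dd g i (C a) = 0 := by
  rw [← algebraMap_eq, Derivation.map_algebraMap]

theorem dd_cls (i j : ℕ) (hi : i ≤ 2 * g) (hj : j ≤ 2 * g) : dd g i (cls g j) = C (om i j) := by
  rcases Nat.lt_or_ge j (2 * g) with h | h
  · rw [cls_lt h, dd_X]
  · have : j = 2 * g := by omega
    subst this
    rw [cls_last, map_neg, map_sum]
    simp only [dd_X]
    rw [← map_sum, ← map_neg, Fin.sum_univ_eq_sum_range (fun j => om i (2 * j)) g, sum_om i hi,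
      neg_neg]

theorem twist_X (i : ℕ) (j : Fin (2 * g)) : twist g i (X j) = X j + C (om i j) * cls g i := by
  unfold twist; rw [aeval_X]

theorem twist_cls (i j : ℕ) (hi : i ≤ 2 * g) (hj : j ≤ 2 * g) :
    twist g i (cls g j) = cls g j + C (om i j) * cls g i := by
  rcases Nat.lt_or_ge j (2 * g) with h | h
  · rw [cls_lt h, twist_X]
  · have : j = 2 * g := by omega
    subst this
    rw [cls_last, map_neg, map_sum]
    simp only [twist_X]
    rw [Finset.sum_add_distrib, ← Finset.sum_mul, ← map_sum,
      Fin.sum_univ_eq_sum_range (fun j => om i (2 * j)) g, sum_om i hi, map_neg]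
    ring

theorem twistInv_X (i : ℕ) (j : Fin (2 * g)) :
    twistInv g i (X j) = X j - C (om i j) * cls g i := by
  unfold twistInv; rw [aeval_X]

theorem twistInv_cls_self (i : ℕ) (hi : i ≤ 2 * g) : twistInv g i (cls g i) = cls g i := by
  rcases Nat.lt_or_ge i (2 * g) with h | h
  · rw [cls_lt h, twistInv_X]; simp [om_self]
  · have : i = 2 * g := by omega
    subst this
    rw [cls_last, map_neg, map_sum]
    simp only [twistInv_X]
    rw [Finset.sum_sub_distrib, ← Finset.sum_mul, ← map_sum,
      Fin.sum_univ_eq_sum_range (fun j => om (2 * g) (2 * j)) g, sum_om _ hi, om_self]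
    simp

theorem twist_twistInv (i : ℕ) (hi : i ≤ 2 * g) (f : MvPolynomial (Fin (2 * g)) ℝ) :
    twist g i (twistInv g i f) = f := by
  have : (twist g i).comp (twistInv g i) = AlgHom.id ℝ _ := by
    apply MvPolynomial.algHom_ext
    intro j
    rw [AlgHom.comp_apply, twistInv_X, map_sub, map_mul, twist_X, twist_cls i i hi hi,
      om_self, ← algebraMap_eq, AlgHom.commutes]
    simp
  exact DFunLike.congr_fun this f

theorem twistInv_twist (i : ℕ) (hi : i ≤ 2 * g) (f : MvPolynomial (Fin (2 * g)) ℝ) :
    twistInv g i (twist g i f) = f := by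
  have : (twistInv g i).comp (twist g i) = AlgHom.id ℝ _ := by
    apply MvPolynomial.algHom_ext
    intro j
    rw [AlgHom.comp_apply, twist_X, map_add, map_mul, twistInv_X, twistInv_cls_self i hi,
      ← algebraMap_eq, AlgHom.commutes]
    simp
  exact DFunLike.congr_fun this f

theorem twist_comm {i j : ℕ} (hi : i ≤ 2 * g) (hj : j ≤ 2 * g) (h : om i j = 0)
    (f : MvPolynomial (Fin (2 * g)) ℝ) :
    twist g i (twist g j f) = twist g j (twist g i f) := by
  have : (twist g i).comp (twist g j) = (twist g j).comp (twist g i) := by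
    apply MvPolynomial.algHom_ext
    intro m
    have h' : om j i = 0 := by rw [om_anti, h, neg_zero]
    rw [AlgHom.comp_apply, AlgHom.comp_apply, twist_X, twist_X, map_add, map_add, map_mul,
      map_mul, twist_X, twist_X, twist_cls i j hi hj, twist_cls j i hj hi, h, h',
      ← algebraMap_eq, AlgHom.commutes, AlgHom.commutes]
    simp
    ring
  exact DFunLike.congr_fun this f

theorem twist_braid {i : ℕ} (hi : i + 1 ≤ 2 * g) (f : MvPolynomial (Fin (2 * g)) ℝ) :
    twist g i (twist g (i + 1) (twist g i f)) =
      twist g (i + 1) (twist g i (twist g (i + 1) f)) := by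
  have : ((twist g i).comp (twist g (i + 1))).comp (twist g i) =
      ((twist g (i + 1)).comp (twist g i)).comp (twist g (i + 1)) := by
    apply MvPolynomial.algHom_ext
    intro m
    have hC : ∀ (n : ℕ) (a : ℝ), twist g n (C a) = C a := fun n a => by
      rw [← algebraMap_eq, AlgHom.commutes]
    have h1 := twist_cls (g := g) i i (by omega) (by omega)
    have h2 := twist_cls (g := g) i (i + 1) (by omega) (by omega)
    have h3 := twist_cls (g := g) (i + 1) i (by omega) (by omega)
    have h4 := twist_cls (g := g) (i + 1) (i + 1) (by omega) (by omega)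
    rw [om_self] at h1 h4
    rw [om_succ] at h2
    rw [om_succ'] at h3
    simp only [AlgHom.comp_apply, twist_X, map_add, map_mul, hC, h1, h2, h3, h4, map_zero,
      map_one, map_neg]
    ring
  exact DFunLike.congr_fun this f

/-- how derivatives move across twists -/
theorem dd_twist (i j : ℕ) (hi : i ≤ 2 * g) (hj : j ≤ 2 * g)
    (f : MvPolynomial (Fin (2 * g)) ℝ) :
    dd g j (twist g i f) = twist g i (dd g j f) - C (om i j) * twist g i (dd g i f) := by
  induction f using MvPolynomial.induction_on with
  | C a =>
    have hC : ∀ (n : ℕ) (a : ℝ), twist g n (C a) = C a := fun n a => by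
      rw [← algebraMap_eq, AlgHom.commutes]
    rw [hC, dd_C, dd_C]; simp
  | add p q hp hq =>
    simp only [map_add, hp, hq]; ring
  | mul_X p m hp =>
    have hC : ∀ (n : ℕ) (a : ℝ), twist g n (C a) = C a := fun n a => by
      rw [← algebraMap_eq, AlgHom.commutes]
    simp only [map_mul, Derivation.leibniz, smul_eq_mul, hp, twist_X, dd_X, map_add, hC,
      dd_cls j i hj hi, dd_C, map_zero]
    rw [om_anti j i]
    simp only [map_neg]
    ring

theorem dd_dd_comm (i j : ℕ) (f : MvPolynomial (Fin (2 * g)) ℝ) :
    dd g i (dd g j f) = dd g j (dd g i f) := by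
  have : ⁅dd g i, dd g j⁆ = 0 := by
    apply MvPolynomial.derivation_ext
    intro m
    rw [Derivation.commutator_apply, dd_X, dd_X, dd_C, dd_C]; simp
  have h2 := DFunLike.congr_fun this f
  rw [Derivation.commutator_apply] at h2
  simpa [sub_eq_zero] using h2

end

end Pool.Agent.Lib.BrSym
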