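import Mathlib

/-!
# Definitions: the braid group on `2g+2` strands, the chain of curves, Dehn twists on `Sym^k`.
-/

open MvPolynomial

namespace Pool.Agent.Lib.BrSym

noncomputable section

/-- Intersection numbers of the chain `c_0, c_1, ..., c_{2g}`. -/
def om (i j : ℕ) : ℝ := if j = i + 1 then 1 else if i = j + 1 then -1 else 0

/-- The class of `c_i` as a linear form: `X_i` for `i < 2g`, and
`-(X_0 + X_2 + ... + X_{2g-2})` for `i = 2g`. -/
def cls (g i : ℕ) : MvPolynomial (Fin (2 * g)) ℝ :=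
  if h : i < 2 * g then X ⟨i, h⟩ else -∑ j : Fin g, X ⟨2 * j.1, by omega⟩

/-- The Dehn twist about `c_i` acting on the symmetric algebra of `H_1`. -/
def twist (g i : ℕ) : MvPolynomial (Fin (2 * g)) ℝ →ₐ[ℝ] MvPolynomial (Fin (2 * g)) ℝ :=
  aeval fun j => X j + C (om i j) * cls g i

/-- The inverse Dehn twist. -/
def twistInv (g i : ℕ) : MvPolynomial (Fin (2 * g)) ℝ →ₐ[ℝ] MvPolynomial (Fin (2 * g)) ℝ :=
  aeval fun j => X j - C (om i j) * cls g i

end

end Pool.Agent.Lib.BrSym
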