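import Pool.Agent.Lib.MP_97e538_al.Reps

open MvPolynomial groupCohomology

namespace Pool.Agent.Lib.BrSym

noncomputable section

variable {g k : ℕ}

/-- the `i`-th standard generator -/
def gen (g : ℕ) (i : Fin (2 * g + 1)) : Braid (2 * g + 1) := PresentedGroup.of i

theorem rho_gen (i : Fin (2 * g + 1)) (v : Wsp g k) :
    ((SymV g k).ρ (gen g i) v).1 = twist g i v.1 := symRep_of g k i v

theorem gen_comm {i j : Fin (2 * g + 1)} (h : i.1 + 2 ≤ j.1) :
    gen g i * gen g j = gen g j * gen g i :=
  PresentedGroup.mk_eq_mk_of_mul_inv_mem (Or.inl ⟨i, j, h, rfl⟩)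

theorem gen_braid {i j : Fin (2 * g + 1)} (h : j.1 = i.1 + 1) :
    gen g i * gen g j * gen g i = gen g j * gen g i * gen g j :=
  PresentedGroup.mk_eq_mk_of_mul_inv_mem (Or.inr ⟨i, j, h, rfl⟩)

/-- generator values of a function on the group -/
def mOf (c : Braid (2 * g + 1) → Wsp g k) (i : ℕ) : MvPolynomial (Fin (2 * g)) ℝ :=
  if h : i < 2 * g + 1 then (c (gen g ⟨i, h⟩)).1 else 0

theorem mOf_lt (c : Braid (2 * g + 1) → Wsp g k) {i : ℕ} (h : i < 2 * g + 1) :
    mOf c i = (c (gen g ⟨i, h⟩)).1 := by
  unfold mOf; rw [dif_pos h]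

theorem gen_of_cocycle (c : cocycles₁ (SymV g k)) : Gen g k (mOf (fun b => c b)) := by
  have hc := (mem_cocycles₁_iff (A := SymV g k) (fun b => c b)).1 c.2
  refine ⟨fun i hi => ?_, fun i j hij hj => ?_, fun i hi => ?_⟩
  · rw [mOf_lt _ (by omega)]; exact (c _).2
  · have h1 : i < 2 * g + 1 := by omega
    have h2 : j < 2 * g + 1 := by omega
    rw [mOf_lt _ h1, mOf_lt _ h2]
    have e := congrArg (fun b => c b) (gen_comm (g := g) (i := ⟨i, h1⟩) (j := ⟨j, h2⟩) hij)
    simp only [hc] at e
    have e2 := congrArg (fun v : Wsp g k => v.1) e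
    have e3 : twist g i (c (gen g ⟨j, h2⟩)).1 + (c (gen g ⟨i, h1⟩)).1 =
        twist g j (c (gen g ⟨i, h1⟩)).1 + (c (gen g ⟨j, h2⟩)).1 := by
      rw [← rho_gen (k := k) ⟨i, h1⟩, ← rho_gen (k := k) ⟨j, h2⟩]
      exact e2
    linear_combination e3
  · have h1 : i < 2 * g + 1 := by omega
    have h2 : i + 1 < 2 * g + 1 := by omega
    rw [mOf_lt _ h1, mOf_lt _ h2]
    have e := congrArg (fun b => c b) (gen_braid (g := g) (i := ⟨i, h1⟩) (j := ⟨i + 1, h2⟩) rfl)
    simp only [hc] at e
    have e2 := congrArg (fun v : Wsp g k => v.1) e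
    have e3 : twist g i (twist g (i + 1) (c (gen g ⟨i, h1⟩)).1) +
        (twist g i (c (gen g ⟨i + 1, h2⟩)).1 + (c (gen g ⟨i, h1⟩)).1) =
        twist g (i + 1) (twist g i (c (gen g ⟨i + 1, h2⟩)).1) +
        (twist g (i + 1) (c (gen g ⟨i, h1⟩)).1 + (c (gen g ⟨i + 1, h2⟩)).1) := by
      rw [← rho_gen (k := k) ⟨i + 1, h2⟩ (c (gen g ⟨i, h1⟩)),
        ← rho_gen (k := k) ⟨i, h1⟩ (c (gen g ⟨i + 1, h2⟩)), ← rho_gen (k := k) ⟨i, h1⟩,
        ← rho_gen (k := k) ⟨i + 1, h2⟩]
      simpa [map_mul] using e2
    linear_combination e3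

/-- a cocycle vanishing on the generators is zero -/
theorem cocycle_ext (c : cocycles₁ (SymV g k)) (h : ∀ i, c (gen g i) = 0) : ∀ b, c b = 0 := by
  have hc := (mem_cocycles₁_iff (A := SymV g k) (fun b => c b)).1 c.2
  let S : Subgroup (Braid (2 * g + 1)) :=
    { carrier := {b | c b = 0}
      mul_mem' := by
        intro a b ha hb
        simp only [Set.mem_ofPred_eq] at ha hb ⊢
        have := hc a b
        simp only at this
        rw [this, ha, hb, map_zero, add_zero]
      one_mem' := cocycles₁_map_one c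
      inv_mem' := by
        intro a ha
        simp only [Set.mem_ofPred_eq] at ha ⊢
        have := hc a⁻¹ a
        simp only at this
        rw [inv_mul_cancel, cocycles₁_map_one, ha, map_zero, zero_add] at this
        exact this.symm }
  intro b
  exact PresentedGroup.generated_by _ S h b

/-- affine action attached to generator data -/
def affEquiv (m : Fin (2 * g + 1) → Wsp g k) (i : Fin (2 * g + 1)) : Equiv.Perm (Wsp g k) where
  toFun v := twEquiv g k i v + m i
  invFun v := (twEquiv g k i).symm (v - m i)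
  left_inv v := by simp
  right_inv v := by simp

/-- generator data extend to a cocycle -/
theorem exists_cocycle {m : ℕ → MvPolynomial (Fin (2 * g)) ℝ} (H : Gen g k m) :
    ∃ c : cocycles₁ (SymV g k), ∀ i : Fin (2 * g + 1), (c (gen g i)).1 = m i := by
  set m' : Fin (2 * g + 1) → Wsp g k := fun i => ⟨m i, H.hom i (by omega)⟩ with hm'
  have hrel : ∀ r ∈ artinRels (2 * g + 1), FreeGroup.lift (affEquiv m') r = 1 := by
    rintro r (⟨i, j, hij, rfl⟩ | ⟨i, j, hij, rfl⟩)
    · have hi := i.2
      have hj := j.2
      simp only [map_mul, map_inv, FreeGroup.lift_apply_of]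
      rw [mul_inv_eq_one]
      ext v : 2
      simp only [Equiv.Perm.coe_mul, Function.comp_apply]
      show twist g i (twist g j v.1 + m j) + m i = twist g j (twist g i v.1 + m i) + m j
      rw [map_add, map_add]
      have h1 := twist_comm (g := g) (i := i) (j := j) (by omega) (by omega)
        (om_far (by omega)) v.1
      have h2 := H.comm i j hij (by omega)
      linear_combination h1 + h2
    · have hj := j.2
      simp only [map_mul, map_inv, FreeGroup.lift_apply_of]
      rw [mul_inv_eq_one]
      ext v : 2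
      simp only [Equiv.Perm.coe_mul, Function.comp_apply]
      show twist g i (twist g j (twist g i v.1 + m i) + m j) + m i =
        twist g j (twist g i (twist g j v.1 + m j) + m i) + m j
      rw [hij]
      simp only [map_add]
      have h1 := twist_braid (g := g) (i := i) (by omega) v.1
      have h2 := H.braid i (by omega)
      linear_combination h1 + h2
  set A : Braid (2 * g + 1) →* Equiv.Perm (Wsp g k) := PresentedGroup.toGroup hrel with hA
  have hAgen : ∀ i v, A (gen g i) v = (SymV g k).ρ (gen g i) v + m' i := by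
    intro i v
    have h1 : A (gen g i) = affEquiv m' i := PresentedGroup.toGroup.of hrel
    rw [h1]
    apply Subtype.ext
    show twist g i v.1 + (m' i).1 = ((SymV g k).ρ (gen g i) v).1 + (m' i).1
    rw [rho_gen]
  have hA0 : ∀ b v, A b v = (SymV g k).ρ b v + A b 0 := by
    let S : Subgroup (Braid (2 * g + 1)) :=
      { carrier := {b | ∀ v, A b v = (SymV g k).ρ b v + A b 0}
        mul_mem' := by
          intro a b ha hb v
          rw [map_mul, map_mul, Equiv.Perm.mul_apply, Equiv.Perm.mul_apply, ha (A b v),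
            ha (A b 0), hb v, map_add]
          show _ = (SymV g k).ρ a ((SymV g k).ρ b v) + _
          abel
        one_mem' := by
          intro v
          rw [map_one, map_one]
          simp
        inv_mem' := by
          intro a ha v
          have e1 : ∀ w, (SymV g k).ρ a (A a⁻¹ w) = w - A a 0 := by
            intro w
            have := ha (A a⁻¹ w)
            rw [← Equiv.Perm.mul_apply, ← map_mul, mul_inv_cancel, map_one] at this
            rw [eq_sub_iff_add_eq, ← this]
            rfl
          have e2 : ∀ w, A a⁻¹ w = (SymV g k).ρ a⁻¹ (w - A a 0) := by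
            intro w
            rw [← e1 w, ← Module.End.mul_apply, ← map_mul, inv_mul_cancel, map_one]
            rfl
          rw [e2 v, e2 0, map_sub, map_sub, map_zero ((SymV g k).ρ a⁻¹)]
          abel }
    intro b
    exact PresentedGroup.generated_by _ S (fun i v => by
      have h1 := hAgen i v
      have h2 := hAgen i 0
      rw [map_zero ((SymV g k).ρ (gen g i)), zero_add] at h2
      show A (gen g i) v = (SymV g k).ρ (gen g i) v + A (gen g i) 0
      rw [h1, h2]) b
  refine ⟨⟨fun b => A b 0, ?_⟩, fun i => ?_⟩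
  · rw [mem_cocycles₁_iff]
    intro a b
    rw [map_mul, Equiv.Perm.mul_apply, hA0 a (A b 0)]
  · show (A (gen g i) 0).1 = m i
    rw [hAgen i 0, map_zero ((SymV g k).ρ (gen g i)), zero_add]

end

end Pool.Agent.Lib.BrSym
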