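import Pool.Agent.Lib.MP_97e538_al.Ranks

/-!
# First cohomology of `B_{2g+2}` with coefficients in `Sym^k (V_{2g} ⊗ ℝ)`

`Braid (2 * g + 1)` is the braid group on `2g+2` strands (Artin presentation with `2g+1`
generators `σ_0, ..., σ_{2g}`), and `SymV g k` is its representation on the homogeneous
polynomials of degree `k` in the classes `X_0, ..., X_{2g-1}` of the curves of the chain
`c_0, ..., c_{2g}`, where `σ_i` acts by the Dehn twist about `c_i`, that is, by the algebra
automorphism induced by the transvection `x ↦ x + ω(c_i, x) c_i` of `H_1(Σ_g; ℝ)`.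
-/

namespace Pool.Agent.Results.MP_97e538_al.FirstCohomology

open Pool.Agent.Lib.BrSym

/-- For every `g ≥ 2` and `k ≥ 0`, the real vector space `H^1(B_{2g+2}; Sym^k (V_{2g} ⊗ ℝ))` has
dimension `1` if `k ≤ 1` and is zero if `k ≥ 2`. -/
theorem result (g : ℕ) (hg : 2 ≤ g) (k : ℕ) :
    Module.rank ℝ (groupCohomology (SymV g k) 1) = if k ≤ 1 then 1 else 0 :=
  rank_H1 hg

end Pool.Agent.Results.MP_97e538_al.FirstCohomology
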