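import Pool.Agent.Lib.MP_97e538_al.Shift

open MvPolynomial

namespace Pool.Agent.Lib.BrSym

noncomputable section

variable {g : ℕ}

theorem cls_ne (hg : 1 ≤ g) {i : ℕ} (hi : i ≤ 2 * g) : cls g i ≠ 0 := by
  intro h
  rcases Nat.eq_zero_or_pos i with h0 | h0
  · subst h0
    have := dd_cls (g := g) 1 0 (by omega) (by omega)
    rw [h, map_zero, om_succ' 0] at this
    have h2 := C_injective (Fin (2 * g)) ℝ (this.symm.trans (map_zero C).symm)
    norm_num at h2
  · obtain ⟨j, rfl⟩ : ∃ j, i = j + 1 := ⟨i - 1, by omega⟩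
    have := dd_cls (g := g) j (j + 1) (by omega) hi
    rw [h, map_zero, om_succ] at this
    have h2 := C_injective (Fin (2 * g)) ℝ (this.symm.trans (map_zero C).symm)
    norm_num at h2

theorem twist_cls_self {i : ℕ} (hi : i ≤ 2 * g) : twist g i (cls g i) = cls g i := by
  rw [twist_cls i i hi hi, om_self]; simp

theorem fixed_of_dd (i : ℕ) {f : MvPolynomial (Fin (2 * g)) ℝ} (h : dd g i f = 0) :
    twist g i f = f :=
  gtw_of_gdd (fun j : Fin (2 * g) => om i j) (cls g i) h

theorem dd_of_fixed (hg : 1 ≤ g) {i : ℕ} (hi : i ≤ 2 * g) {f : MvPolynomial (Fin (2 * g)) ℝ}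
    (h : twist g i f = f) : dd g i f = 0 :=
  gdd_of_gtw (fun j : Fin (2 * g) => om i j) (cls g i) (twist_cls_self hi) (cls_ne hg hi) h

/-- partial derivatives indexed by `ℕ` -/
def pdn (g m : ℕ) : Derivation ℝ (MvPolynomial (Fin (2 * g)) ℝ) (MvPolynomial (Fin (2 * g)) ℝ) :=
  if h : m < 2 * g then pderiv ⟨m, h⟩ else 0

theorem pdn_lt {m : ℕ} (h : m < 2 * g) : pdn g m = pderiv ⟨m, h⟩ := by
  unfold pdn; rw [dif_pos h]

theorem pdn_ge {m : ℕ} (h : 2 * g ≤ m) : pdn g m = 0 := by
  unfold pdn; rw [dif_neg (by omega)]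

theorem pdn_X (m : ℕ) (j : Fin (2 * g)) :
    pdn g m (X j) = if j.1 = m then 1 else 0 := by
  rcases Nat.lt_or_ge m (2 * g) with h | h
  · rw [pdn_lt h, pderiv_X]
    by_cases h2 : j.1 = m
    · subst h2
      rw [if_pos rfl]
      exact Pi.single_eq_same _ _
    · rw [if_neg h2]
      exact Pi.single_eq_of_ne (fun h3 => h2 (by rw [h3])) _
  · rw [pdn_ge h, if_neg (by have := j.2; omega)]; rfl

theorem pdn_C (m : ℕ) (a : ℝ) : pdn g m (C a) = 0 := by
  rw [← algebraMap_eq, Derivation.map_algebraMap]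

theorem dd_zero' (f : MvPolynomial (Fin (2 * g)) ℝ) : dd g 0 f = pdn g 1 f := by
  have : dd g 0 = pdn g 1 := by
    apply derivation_ext
    intro j
    rw [dd_X, pdn_X]
    unfold om
    rw [if_neg (show ¬(0 = j.1 + 1) by omega), zero_add]
    split_ifs <;> simp
  rw [this]

theorem dd_succ' (i : ℕ) (f : MvPolynomial (Fin (2 * g)) ℝ) :
    dd g (i + 1) f = pdn g (i + 2) f - pdn g i f := by
  have : dd g (i + 1) = pdn g (i + 2) - pdn g i := by
    apply derivation_ext
    intro j
    rw [Derivation.sub_apply, dd_X, pdn_X, pdn_X]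
    unfold om
    split_ifs <;> first | omega | simp
  rw [this, Derivation.sub_apply]

theorem pd_of_dd {m0 : ℕ} {f : MvPolynomial (Fin (2 * g)) ℝ}
    (h : ∀ l, m0 + 1 ≤ l → l ≤ 2 * g → dd g l f = 0) :
    ∀ m, m0 ≤ m → pdn g m f = 0 := by
  have key : ∀ d m, m0 ≤ m → 2 * g ≤ m + d → pdn g m f = 0 := by
    intro d
    induction d with
    | zero => intro m _ h2; rw [pdn_ge (by omega)]; rfl
    | succ d ih =>
      intro m h1 h2
      rcases Nat.lt_or_ge m (2 * g) with h3 | h3
      · have h4 := h (m + 1) (by omega) (by omega)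
        rw [dd_succ', ih (m + 2) (by omega) (by omega), zero_sub, neg_eq_zero] at h4
        exact h4
      · rw [pdn_ge h3]; rfl
  intro m hm
  exact key (2 * g) m hm (by omega)

theorem eq_zero_of_pd {n : ℕ} (hn : n ≠ 0) {f : MvPolynomial (Fin (2 * g)) ℝ}
    (hf : f.IsHomogeneous n) (h : ∀ m, pdn g m f = 0) : f = 0 := by
  have h1 := hf.sum_X_mul_pderiv
  rw [Finset.sum_eq_zero] at h1
  · rw [nsmul_eq_mul] at h1
    rcases mul_eq_zero.1 h1.symm with h2 | h2
    · exact absurd (Nat.cast_eq_zero.1 h2) hn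
    · exact h2
  · intro i _
    have := h i.1
    rw [pdn_lt i.2] at this
    rw [this, mul_zero]

theorem cls_hom (i : ℕ) : (cls g i).IsHomogeneous 1 := by
  unfold cls
  split_ifs
  · exact isHomogeneous_X _ _
  · exact (IsHomogeneous.sum _ _ _ fun j _ => isHomogeneous_X _ _).neg

theorem twist_hom (i : ℕ) {k : ℕ} {f : MvPolynomial (Fin (2 * g)) ℝ} (hf : f.IsHomogeneous k) :
    (twist g i f).IsHomogeneous k := by
  have := hf.aeval (S := ℝ) (fun j : Fin (2 * g) => X j + C (om i j) * cls g i) (n := 1)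
    (fun j => (isHomogeneous_X _ _).add ((cls_hom i).C_mul _))
  rw [one_mul] at this
  exact this

theorem twistInv_hom (i : ℕ) {k : ℕ} {f : MvPolynomial (Fin (2 * g)) ℝ}
    (hf : f.IsHomogeneous k) : (twistInv g i f).IsHomogeneous k := by
  have := hf.aeval (S := ℝ) (fun j : Fin (2 * g) => X j - C (om i j) * cls g i) (n := 1)
    (fun j => (isHomogeneous_X _ _).sub ((cls_hom i).C_mul _))
  rw [one_mul] at this
  exact this

theorem pdn_hom (m : ℕ) {k : ℕ} {f : MvPolynomial (Fin (2 * g)) ℝ} (hf : f.IsHomogeneous k) :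
    (pdn g m f).IsHomogeneous (k - 1) := by
  rcases Nat.lt_or_ge m (2 * g) with h | h
  · rw [pdn_lt h]; exact hf.pderiv
  · rw [pdn_ge h]; exact isHomogeneous_zero _ _ _

theorem dd_hom (i : ℕ) {k : ℕ} {f : MvPolynomial (Fin (2 * g)) ℝ} (hf : f.IsHomogeneous k) :
    (dd g i f).IsHomogeneous (k - 1) := by
  rcases Nat.eq_zero_or_pos i with h | h
  · subst h; rw [dd_zero']; exact pdn_hom _ hf
  · obtain ⟨j, rfl⟩ : ∃ j, i = j + 1 := ⟨i - 1, by omega⟩
    rw [dd_succ']; exact (pdn_hom _ hf).sub (pdn_hom _ hf)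

theorem sum_om' (m : ℕ) (hm : m < 2 * g) : ∑ j ∈ Finset.range (g + 1), om (2 * j) m = 0 := by
  have h : ∀ j ∈ Finset.range (g + 1), om (2 * j) m = -om m (2 * j) := fun j _ => om_anti _ _
  rw [Finset.sum_congr rfl h, Finset.sum_range_succ, Finset.sum_neg_distrib,
    sum_om m (by omega)]
  ring

theorem sum_dd (f : MvPolynomial (Fin (2 * g)) ℝ) :
    ∑ j ∈ Finset.range (g + 1), dd g (2 * j) f = 0 := by
  induction f using MvPolynomial.induction_on with
  | C a => exact Finset.sum_eq_zero fun j _ => dd_C _ _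
  | add p q hp hq =>
    simp only [map_add, Finset.sum_add_distrib, hp, hq, add_zero]
  | mul_X p m hp =>
    simp only [Derivation.leibniz, dd_X, smul_eq_mul, Finset.sum_add_distrib,
      ← Finset.mul_sum, hp, ← map_sum]
    rw [sum_om' _ m.2]; simp

/-- setting the variable `X_m` to zero -/
def eps (g m : ℕ) : MvPolynomial (Fin (2 * g)) ℝ →ₐ[ℝ] MvPolynomial (Fin (2 * g)) ℝ :=
  aeval fun j => if j.1 = m then 0 else X j

theorem eps_X (m : ℕ) (j : Fin (2 * g)) : eps g m (X j) = if j.1 = m then 0 else X j := by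
  unfold eps; rw [aeval_X]

theorem eps_C (m : ℕ) (a : ℝ) : eps g m (C a) = C a := by
  rw [← algebraMap_eq, AlgHom.commutes]

theorem eps_hom (m : ℕ) {k : ℕ} {f : MvPolynomial (Fin (2 * g)) ℝ} (hf : f.IsHomogeneous k) :
    (eps g m f).IsHomogeneous k := by
  have := hf.aeval (S := ℝ) (fun j : Fin (2 * g) => if j.1 = m then 0 else X j) (n := 1)
    (fun j => by
      split_ifs
      · exact isHomogeneous_zero _ _ _
      · exact isHomogeneous_X _ _)
  rw [one_mul] at this
  exact this

theorem eps_fix {m : ℕ} {f : MvPolynomial (Fin (2 * g)) ℝ} (h : pdn g m f = 0) :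
    eps g m f = f := by
  rcases Nat.lt_or_ge m (2 * g) with hm | hm
  · have h1 : pdn g m = gdd (fun j : Fin (2 * g) => if j.1 = m then (1 : ℝ) else 0) := by
      apply derivation_ext
      intro j
      rw [pdn_X, gdd_X]
      split_ifs <;> simp
    have h2 : eps g m = gtw (fun j : Fin (2 * g) => if j.1 = m then (1 : ℝ) else 0)
        (-X ⟨m, hm⟩) := by
      apply algHom_ext
      intro j
      rw [eps_X, gtw_X]
      split_ifs with h3
      · have : j = ⟨m, hm⟩ := Fin.ext h3
        rw [this]; simp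
      · simp
    rw [h2]
    apply gtw_of_gdd
    rw [← h1]; exact h
  · have h2 : eps g m = AlgHom.id ℝ _ := by
      apply algHom_ext
      intro j
      rw [eps_X, if_neg (by have := j.2; omega)]; rfl
    rw [h2]; rfl

theorem eps_dvd {m : ℕ} (hm : m < 2 * g) (f : MvPolynomial (Fin (2 * g)) ℝ) :
    ∃ q, f - eps g m f = X ⟨m, hm⟩ * q := by
  induction f using MvPolynomial.induction_on with
  | C a => exact ⟨0, by rw [eps_C]; ring⟩
  | add p q hp hq =>
    obtain ⟨a, ha⟩ := hp
    obtain ⟨b, hb⟩ := hq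
    refine ⟨a + b, ?_⟩
    rw [map_add]
    linear_combination ha + hb
  | mul_X p j hp =>
    obtain ⟨a, ha⟩ := hp
    rw [map_mul, eps_X]
    split_ifs with h3
    · have : j = ⟨m, hm⟩ := Fin.ext h3
      exact ⟨p, by rw [this]; ring⟩
    · exact ⟨a * X j, by linear_combination X j * ha⟩

theorem pdn_eps (m : ℕ) (f : MvPolynomial (Fin (2 * g)) ℝ) : pdn g m (eps g m f) = 0 := by
  induction f using MvPolynomial.induction_on with
  | C a => rw [eps_C, pdn_C]
  | add p q hp hq => rw [map_add, map_add, hp, hq, add_zero]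
  | mul_X p j hp =>
    rw [map_mul, eps_X]
    split_ifs with h3
    · rw [mul_zero, map_zero]
    · rw [Derivation.leibniz, hp, pdn_X, if_neg h3]; simp

theorem dd_eps {i m : ℕ} (h : om i m = 0) (f : MvPolynomial (Fin (2 * g)) ℝ) :
    dd g i (eps g m f) = eps g m (dd g i f) := by
  induction f using MvPolynomial.induction_on with
  | C a => rw [eps_C, dd_C, map_zero]
  | add p q hp hq => simp only [map_add, hp, hq]
  | mul_X p j hp =>
    simp only [map_mul, eps_X, Derivation.leibniz, smul_eq_mul, map_add, dd_X, eps_C]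
    split_ifs with h3
    · rw [h3, h]; simp
    · simp only [hp, dd_X]

/-- the standard homogeneous components commute with twists -/
theorem hc_twist (i k : ℕ) (f : MvPolynomial (Fin (2 * g)) ℝ) :
    homogeneousComponent k (twist g i f) = twist g i (homogeneousComponent k f) := by
  conv_lhs => rw [← sum_homogeneousComponent f, map_sum, map_sum]
  have h : ∀ j ∈ Finset.range (f.totalDegree + 1),
      homogeneousComponent k (twist g i (homogeneousComponent j f)) =
        if j = k then twist g i (homogeneousComponent k f) else 0 := by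
    intro j _
    have h1 := homogeneousComponent_of_mem (m := k) (n := j)
      (twist_hom i (homogeneousComponent_isHomogeneous j f))
    rw [h1]
    by_cases h2 : k = j
    · subst h2; simp
    · rw [if_neg h2, if_neg (fun h => h2 h.symm)]
  rw [Finset.sum_congr rfl h, Finset.sum_ite_eq']
  split_ifs with h2
  · rfl
  · rw [homogeneousComponent_eq_zero, map_zero]
    simpa [Nat.lt_succ_iff] using h2

end

end Pool.Agent.Lib.BrSym
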