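import Pool.Agent.Lib.MP_97e538_al.Final

open MvPolynomial groupCohomology

namespace Pool.Agent.Lib.BrSym

noncomputable section

variable {g k : ℕ}

theorem rank_one_of {M : Type} [AddCommGroup M] [Module ℝ M] (v : M) (hv : v ≠ 0)
    (h : ∀ w, ∃ c : ℝ, c • v = w) : Module.rank ℝ M = 1 :=
  rank_eq_one v hv h

/-- homogeneous linear forms -/
theorem twist_lin {i : ℕ} {n : MvPolynomial (Fin (2 * g)) ℝ} (hn : n.IsHomogeneous 1) :
    twist g i n = n + dd g i n * cls g i := by
  have h1 := hn.sum_X_mul_pderiv
  rw [one_smul] at h1
  have h2 : ∀ j : Fin (2 * g), ∃ a : ℝ, pderiv j n = C a := by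
    intro j
    have h3 : (pderiv j n).IsHomogeneous 0 := by
      have := hn.pderiv (i := j)
      simpa using this
    have h4 := (totalDegree_zero_iff_isHomogeneous _).2 h3
    rw [totalDegree_eq_zero_iff_eq_C] at h4
    exact ⟨_, h4⟩
  choose a ha using h2
  simp only [ha] at h1
  rw [← h1, map_sum, map_sum, Finset.sum_mul, ← Finset.sum_add_distrib]
  apply Finset.sum_congr rfl
  intro j _
  rw [map_mul, twist_X, twist_C, Derivation.leibniz, dd_X, dd_C, smul_zero, zero_add,
    smul_eq_mul]
  ring

theorem hom_zero {n : MvPolynomial (Fin (2 * g)) ℝ} (hn : n.IsHomogeneous 0) :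
    ∃ a : ℝ, n = C a := by
  have h4 := (totalDegree_zero_iff_isHomogeneous _).2 hn
  rw [totalDegree_eq_zero_iff_eq_C] at h4
  exact ⟨_, h4⟩

/-- `H^0` -/
theorem rank_H0 (hg : 2 ≤ g) :
    Module.rank ℝ (groupCohomology (SymV g k) 0) = (if k = 0 then 1 else 0) := by
  have e : Module.rank ℝ (groupCohomology (SymV g k) 0) =
      Module.rank ℝ (SymV g k).ρ.invariants :=
    (H0Iso (SymV g k)).toLinearEquiv.rank_eq
  rw [e]
  split_ifs with hk
  · subst hk
    have hinv : ∀ b, ∀ v : Wsp g 0, (SymV g 0).ρ b v = v := by
      intro b
      let S : Subgroup (Braid (2 * g + 1)) :=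
        { carrier := {b | ∀ v : Wsp g 0, (SymV g 0).ρ b v = v}
          mul_mem' := by
            intro a b ha hb v
            rw [map_mul, Module.End.mul_apply, hb v, ha v]
          one_mem' := by
            intro v
            rw [map_one]; rfl
          inv_mem' := by
            intro a ha v
            have h1 := ha ((SymV g 0).ρ a⁻¹ v)
            rw [← Module.End.mul_apply, ← map_mul, mul_inv_cancel, map_one] at h1
            exact h1.symm }
      refine PresentedGroup.generated_by _ S (fun i v => ?_) b
      apply Subtype.ext
      obtain ⟨a, ha⟩ := hom_zero v.2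
      have := rho_gen i v
      show ((SymV g 0).ρ (gen g i) v).1 = v.1
      rw [this, ha, twist_C]
    refine rank_one_of (⟨⟨1, isHomogeneous_one _ _⟩, fun b => hinv b _⟩ :
      (SymV g 0).ρ.invariants) ?_ ?_
    · intro h
      have h1 := congrArg (fun v : (SymV g 0).ρ.invariants => v.1.1) h
      exact one_ne_zero (α := MvPolynomial (Fin (2 * g)) ℝ) h1
    · rintro ⟨w, hw⟩
      obtain ⟨a, ha⟩ := hom_zero w.2
      refine ⟨a, Subtype.ext (Subtype.ext ?_)⟩
      show a • (1 : MvPolynomial (Fin (2 * g)) ℝ) = w.1
      rw [ha, smul_eq_C_mul, mul_one]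
  · have hz : ∀ v : (SymV g k).ρ.invariants, v = 0 := by
      rintro ⟨v, hv⟩
      apply Subtype.ext
      apply Subtype.ext
      show v.1 = 0
      apply eq_zero_of_pd hk v.2
      intro m
      apply pd_of_dd (m0 := 0) _ m (Nat.zero_le _)
      intro l _ hl
      apply dd_of_fixed (by omega) hl
      have h1 := hv (gen g ⟨l, by omega⟩)
      have h2 := rho_gen (k := k) ⟨l, by omega⟩ v
      rw [h1] at h2
      exact h2.symm
    have : Subsingleton (SymV g k).ρ.invariants := ⟨fun a b => by rw [hz a, hz b]⟩
    exact rank_subsingleton' _ _

/-- cocycles agreeing on the generators agree -/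
theorem cocycle_eq (c d : cocycles₁ (SymV g k)) (h : ∀ i, c (gen g i) = d (gen g i)) :
    c = d := by
  have hc := (mem_cocycles₁_iff (A := SymV g k) (fun b => c b)).1 c.2
  have hd := (mem_cocycles₁_iff (A := SymV g k) (fun b => d b)).1 d.2
  let S : Subgroup (Braid (2 * g + 1)) :=
    { carrier := {b | c b = d b}
      mul_mem' := by
        intro a b ha hb
        simp only [Set.mem_ofPred_eq] at ha hb ⊢
        have e1 := hc a b
        have e2 := hd a b
        simp only at e1 e2
        rw [e1, e2, ha, hb]
      one_mem' := (cocycles₁_map_one c).trans (cocycles₁_map_one d).symm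
      inv_mem' := by
        intro a ha
        simp only [Set.mem_ofPred_eq] at ha ⊢
        have e1 := hc a⁻¹ a
        have e2 := hd a⁻¹ a
        simp only at e1 e2
        rw [inv_mul_cancel, cocycles₁_map_one] at e1 e2
        rw [ha] at e1
        exact add_left_cancel (e1.symm.trans e2) }
  apply cocycles₁_ext
  intro b
  exact PresentedGroup.generated_by _ S h b

/-- the coboundary of `n` -/
def cobd (n : Wsp g k) : cocycles₁ (SymV g k) :=
  ⟨fun b => (SymV g k).ρ b n - n, by
    rw [mem_cocycles₁_iff]
    intro a b
    rw [map_mul, Module.End.mul_apply, map_sub]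
    abel⟩

theorem cobd_apply (n : Wsp g k) (b : Braid (2 * g + 1)) :
    cobd n b = (SymV g k).ρ b n - n := rfl

theorem H1π_cobd (n : Wsp g k) : H1π (SymV g k) (cobd n) = 0 := by
  rw [H1π_eq_zero_iff]
  exact ⟨n, rfl⟩

theorem H1_eq (c z : cocycles₁ (SymV g k)) (r : ℝ) (n : Wsp g k)
    (h : ∀ i, i < 2 * g + 1 → mOf (fun b => c b) i =
      C r * mOf (fun b => z b) i + (twist g i n.1 - n.1)) :
    r • H1π (SymV g k) z = H1π (SymV g k) c := by
  have h1 : c = r • z + cobd n := by
    apply cocycle_eq
    intro i
    apply Subtype.ext
    have h2 := h i.1 i.2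
    rw [mOf_lt _ i.2, mOf_lt _ i.2, ← smul_eq_C_mul] at h2
    have h3 : ((r • z + cobd n) (gen g i)).1 =
        r • (z (gen g i)).1 + (((SymV g k).ρ (gen g i) n).1 - n.1) := rfl
    rw [h3, rho_gen]
    exact h2
  have h4 : H1π (SymV g k) (r • z + cobd n) =
      r • H1π (SymV g k) z + H1π (SymV g k) (cobd n) :=
    ((H1π (SymV g k)).hom.map_add _ _).trans
      (congrArg (· + _) ((H1π (SymV g k)).hom.map_smul r z))
  rw [h1, h4, H1π_cobd, add_zero]

/-- a cocycle given on generators by `T_i n - n` is a coboundary -/
theorem H1_zero (c : cocycles₁ (SymV g k)) (n : Wsp g k)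
    (h : ∀ i, i < 2 * g + 1 → mOf (fun b => c b) i = twist g i n.1 - n.1) :
    H1π (SymV g k) c = 0 := by
  have := H1_eq c c 0 n (fun i hi => by rw [h i hi, map_zero, zero_mul, zero_add])
  rw [← this, zero_smul]

theorem coboundary_gen (c : cocycles₁ (SymV g k)) (h : H1π (SymV g k) c = 0) :
    ∃ n : Wsp g k, ∀ i, i < 2 * g + 1 → mOf (fun b => c b) i = twist g i n.1 - n.1 := by
  rw [H1π_eq_zero_iff] at h
  obtain ⟨n, hn⟩ := h
  refine ⟨n, fun i hi => ?_⟩
  rw [mOf_lt _ hi]
  have h1 := congrFun hn (gen g ⟨i, hi⟩)
  have h2 : (c (gen g ⟨i, hi⟩)).1 = ((SymV g k).ρ (gen g ⟨i, hi⟩) n).1 - n.1 := by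
    have h3 : (c (gen g ⟨i, hi⟩)) = (SymV g k).ρ (gen g ⟨i, hi⟩) n - n := h1.symm
    rw [h3]; rfl
  rw [h2, rho_gen]

theorem rank_H1 (hg : 2 ≤ g) :
    Module.rank ℝ (groupCohomology (SymV g k) 1) = (if k ≤ 1 then 1 else 0) := by
  split_ifs with hk
  · rcases Nat.eq_zero_or_pos k with h0 | h0
    · subst h0
      -- constants
      have HG : Gen g 0 (fun _ => 1) := by
        refine ⟨fun i _ => isHomogeneous_one _ _, fun i j _ _ => ?_, fun i _ => ?_⟩
        · simp only [map_one]
        · simp only [map_one]
      obtain ⟨z, hz⟩ := exists_cocycle HG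
      have hz' : ∀ i, i < 2 * g + 1 → mOf (fun b => z b) i = 1 := fun i hi => by
        rw [mOf_lt _ hi]; exact hz ⟨i, hi⟩
      refine rank_one_of (M := groupCohomology (SymV g 0) 1) (H1π (SymV g 0) z) ?_ ?_
      · intro h
        obtain ⟨n, hn⟩ := coboundary_gen z h
        have h1 := hn 0 (by omega)
        obtain ⟨a, ha⟩ := hom_zero n.2
        rw [hz' 0 (by omega), ha, twist_C, sub_self] at h1
        exact one_ne_zero h1
      · intro w
        induction w using H1_induction_on with
        | h c =>
          have H := gen_of_cocycle c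
          obtain ⟨a, ha⟩ := hom_zero (H.hom 0 (by omega))
          have hall : ∀ i, i ≤ 2 * g → mOf (fun b => c b) i = C a := by
            intro i
            induction i with
            | zero => intro _; exact ha
            | succ i ih =>
              intro hi
              have h1 := ih (by omega)
              obtain ⟨b, hb⟩ := hom_zero (H.hom (i + 1) hi)
              have h2 := H.braid i hi
              rw [h1, hb] at h2
              simp only [twist_C] at h2
              rw [hb]
              linear_combination -h2
          refine ⟨a, H1_eq c z a 0 fun i hi => ?_⟩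
          rw [hall i (by omega), hz' i hi]
          simp
    · have hk1 : k = 1 := by omega
      subst hk1
      have HG : Gen g 1 (fun i => if i = 0 then cls g 0 else 0) := by
        refine ⟨fun i _ => ?_, fun i j hij hj => ?_, fun i hi => ?_⟩
        · split_ifs
          · exact cls_hom 0
          · exact isHomogeneous_zero _ _ _
        · have hj0 : j ≠ 0 := by omega
          simp only [if_neg hj0, map_zero, add_zero, zero_add]
          split_ifs with h
          · rw [twist_cls j 0 hj (by omega), om_far (by omega)]
            simp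
          · rw [map_zero]
        · simp only [if_neg (Nat.succ_ne_zero i), map_zero, add_zero, zero_add]
          split_ifs with h
          · subst h
            have h1 := twist_cls (g := g) 1 0 (by omega) (by omega)
            have h2 := twist_cls (g := g) 0 0 (by omega) (by omega)
            have h3 := twist_cls (g := g) 0 1 (by omega) (by omega)
            have o1 : om 1 0 = -1 := om_succ' 0
            have o2 : om 0 1 = 1 := om_succ 0
            rw [o1] at h1
            rw [om_self] at h2
            rw [o2] at h3
            rw [zero_add, h1, map_add, map_mul, twist_C, h2, h3]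
            simp only [map_neg, map_one, map_zero]
            ring
          · simp
      obtain ⟨z, hz⟩ := exists_cocycle HG
      have hz' : ∀ i, i < 2 * g + 1 → mOf (fun b => z b) i = if i = 0 then cls g 0 else 0 :=
        fun i hi => by rw [mOf_lt _ hi]; exact hz ⟨i, hi⟩
      refine rank_one_of (M := groupCohomology (SymV g 1) 1) (H1π (SymV g 1) z) ?_ ?_
      · intro h
        obtain ⟨n, hn⟩ := coboundary_gen z h
        have hd : ∀ i, i < 2 * g + 1 → dd g i n.1 = if i = 0 then 1 else 0 := by
          intro i hi
          have h1 := hn i hi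
          rw [hz' i hi, twist_lin n.2] at h1
          have h2 := cls_ne (g := g) (by omega) (i := i) (by omega)
          apply mul_right_cancel₀ h2
          split_ifs at h1 ⊢ with h3
          · subst h3
            linear_combination -h1
          · linear_combination -h1
        have h3 := sum_dd (g := g) n.1
        rw [Finset.sum_range_succ'] at h3
        rw [Finset.sum_eq_zero, zero_add, mul_zero, hd 0 (by omega), if_pos rfl] at h3
        · exact one_ne_zero h3
        · intro j hj
          have := Finset.mem_range.1 hj
          rw [hd _ (by omega), if_neg (by omega)]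
      · intro w
        induction w using H1_induction_on with
        | h c =>
          have H := gen_of_cocycle c
          obtain ⟨n, hn⟩ := exists_n hg one_ne_zero H
          have hf : ∀ i, i ≤ 2 * g → ∃ a : ℝ, dd g i (n i) = C a := by
            intro i hi
            have := dd_hom i (hn i hi).1
            exact hom_zero this
          choose! a ha using hf
          have hm : ∀ i, i ≤ 2 * g → mOf (fun b => c b) i = C (a i) * cls g i := by
            intro i hi
            rw [(hn i hi).2, twist_lin (hn i hi).1, ha i hi]
            ring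
          set s : ℝ := ∑ j ∈ Finset.range (g + 1), a (2 * j) with hs
          obtain ⟨N, hN, hdN⟩ := exact_of_closed (g := g) (k := 1) le_rfl
            (f := fun i => C (a i - if i = 0 then s else 0)) (fun i _ => isHomogeneous_C _ _)
            (fun i j _ _ => by rw [dd_C, dd_C]) (by
              rw [← map_sum, Finset.sum_sub_distrib, ← hs]
              have : ∑ j ∈ Finset.range (g + 1), (if 2 * j = 0 then s else 0) = s := by
                rw [Finset.sum_eq_single 0]
                · simp
                · intro j _ hj
                  rw [if_neg (by omega)]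
                · intro h; exact absurd (Finset.mem_range.2 (by omega)) h
              rw [this, sub_self, map_zero])
          refine ⟨s, H1_eq c z s ⟨N, hN⟩ fun i hi => ?_⟩
          rw [hm i (by omega), hz' i hi]
          show _ = _ + (twist g i N - N)
          rw [twist_lin hN, hdN i (by omega)]
          split_ifs with h
          · subst h
            rw [map_sub]; ring
          · simp
  · have hz : ∀ w : groupCohomology (SymV g k) 1, w = 0 := by
      intro w
      induction w using H1_induction_on with
      | h c =>
        obtain ⟨n, hn, hh⟩ := gen_inner hg (by omega : 2 ≤ k) (gen_of_cocycle c)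
        exact H1_zero c ⟨n, hn⟩ fun i hi => hh i (by omega)
    have : Subsingleton (groupCohomology (SymV g k) 1) := ⟨fun a b => by rw [hz a, hz b]⟩
    exact rank_subsingleton' _ _

end

end Pool.Agent.Lib.BrSym
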