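import Pool.Agent.Lib.MP_97e538_al.Core

open MvPolynomial

namespace Pool.Agent.Lib.BrSym

noncomputable section

variable {σ : Type} (lam : σ → ℝ) (u : MvPolynomial σ ℝ)

/-- general twist `X_j ↦ X_j + lam_j u` -/
def gtw : MvPolynomial σ ℝ →ₐ[ℝ] MvPolynomial σ ℝ :=
  aeval fun j => X j + C (lam j) * u

/-- directional derivative -/
def gdd : Derivation ℝ (MvPolynomial σ ℝ) (MvPolynomial σ ℝ) :=
  mkDerivation ℝ fun j => C (lam j)

/-- one-parameter family of twists -/
def gsh : MvPolynomial σ ℝ →ₐ[ℝ] Polynomial (MvPolynomial σ ℝ) :=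
  aeval fun j => Polynomial.C (X j) + Polynomial.X * Polynomial.C (C (lam j) * u)

theorem gtw_X (j : σ) : gtw lam u (X j) = X j + C (lam j) * u := by
  unfold gtw; rw [aeval_X]

theorem gtw_C (a : ℝ) : gtw lam u (C a) = C a := by
  rw [← algebraMap_eq, AlgHom.commutes]

theorem gdd_X (j : σ) : gdd lam (X j) = C (lam j) := by
  unfold gdd; rw [mkDerivation_X]

theorem gdd_C (a : ℝ) : gdd lam (C a) = 0 := by
  rw [← algebraMap_eq, Derivation.map_algebraMap]

theorem gsh_X (j : σ) : gsh lam u (X j) =
    Polynomial.C (X j) + Polynomial.X * Polynomial.C (C (lam j) * u) := by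
  unfold gsh; rw [aeval_X]

theorem gsh_C (a : ℝ) : gsh lam u (C a) = Polynomial.C (C a) := by
  rw [← algebraMap_eq, AlgHom.commutes]
  rfl

theorem gsh_der (f : MvPolynomial σ ℝ) :
    Polynomial.derivative (gsh lam u f) = Polynomial.C u * gsh lam u (gdd lam f) := by
  induction f using MvPolynomial.induction_on with
  | C a => rw [gsh_C, gdd_C, Polynomial.derivative_C, map_zero, mul_zero]
  | add p q hp hq => simp only [map_add, hp, hq]; ring
  | mul_X p m hp =>
    simp only [map_mul, Polynomial.derivative_mul, hp, gsh_X, Derivation.leibniz, gdd_X,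
      smul_eq_mul, map_add, gsh_C, Polynomial.derivative_C, Polynomial.derivative_X]
    ring

theorem gtw_iter_C (n : ℕ) (a : ℝ) : (gtw lam u)^[n] (C a) = C a :=
  Function.iterate_fixed (gtw_C lam u a) n

theorem gtw_iter_X (hu : gtw lam u u = u) (n : ℕ) (j : σ) :
    (gtw lam u)^[n] (X j) = X j + (n : MvPolynomial σ ℝ) * (C (lam j) * u) := by
  induction n with
  | zero => simp
  | succ n ih =>
    rw [Function.iterate_succ_apply', ih, map_add, gtw_X, map_mul, map_mul, map_natCast, gtw_C,
      hu]
    push_cast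
    ring

theorem gsh_eval (hu : gtw lam u u = u) (n : ℕ) (f : MvPolynomial σ ℝ) :
    (gsh lam u f).eval (n : MvPolynomial σ ℝ) = (gtw lam u)^[n] f := by
  induction f using MvPolynomial.induction_on with
  | C a => rw [gsh_C, Polynomial.eval_C, gtw_iter_C]
  | add p q hp hq => rw [map_add, Polynomial.eval_add, hp, hq, iterate_map_add]
  | mul_X p m hp =>
    rw [map_mul, Polynomial.eval_mul, hp, gsh_X, iterate_map_mul, gtw_iter_X lam u hu]
    simp

theorem gsh_eval_one (f : MvPolynomial σ ℝ) : (gsh lam u f).eval 1 = gtw lam u f := by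
  induction f using MvPolynomial.induction_on with
  | C a => rw [gsh_C, Polynomial.eval_C, gtw_C]
  | add p q hp hq => rw [map_add, Polynomial.eval_add, hp, hq, map_add]
  | mul_X p m hp =>
    rw [map_mul, Polynomial.eval_mul, hp, gsh_X, map_mul (gtw lam u), gtw_X]
    simp

theorem gsh_eval_zero (f : MvPolynomial σ ℝ) : (gsh lam u f).eval 0 = f := by
  induction f using MvPolynomial.induction_on with
  | C a => rw [gsh_C, Polynomial.eval_C]
  | add p q hp hq => rw [map_add, Polynomial.eval_add, hp, hq]
  | mul_X p m hp =>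
    rw [map_mul, Polynomial.eval_mul, hp, gsh_X]
    simp

/-- killed by the derivative implies fixed by the twist -/
theorem gtw_of_gdd {f : MvPolynomial σ ℝ} (h : gdd lam f = 0) : gtw lam u f = f := by
  have h1 : Polynomial.derivative (gsh lam u f) = 0 := by
    rw [gsh_der, h, map_zero, mul_zero]
  have h2 := Polynomial.derivative_eq_zero.1 h1
  have h3 := Polynomial.eq_C_of_natDegree_eq_zero h2
  have h4 := gsh_eval_one lam u f
  have h5 := gsh_eval_zero lam u f
  rw [h3, Polynomial.eval_C] at h4 h5
  exact h4.symm.trans h5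

/-- fixed by the twist implies killed by the derivative -/
theorem gdd_of_gtw (hu : gtw lam u u = u) (h0 : u ≠ 0) {f : MvPolynomial σ ℝ}
    (h : gtw lam u f = f) : gdd lam f = 0 := by
  have h1 : gsh lam u f = Polynomial.C f := by
    apply Polynomial.eq_of_infinite_eval_eq
    apply Set.infinite_of_injective_forall_mem (f := fun n : ℕ => (n : MvPolynomial σ ℝ))
      Nat.cast_injective
    intro n
    show (gsh lam u f).eval (n : MvPolynomial σ ℝ) =
      (Polynomial.C f).eval (n : MvPolynomial σ ℝ)
    rw [gsh_eval lam u hu, Polynomial.eval_C, Function.iterate_fixed h]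
  have h2 := gsh_der lam u f
  rw [h1, Polynomial.derivative_C] at h2
  have h3 : gsh lam u (gdd lam f) = 0 := by
    rcases mul_eq_zero.1 h2.symm with h | h
    · exact absurd (Polynomial.C_eq_zero.1 h) h0
    · exact h
  rw [← gsh_eval_zero lam u (gdd lam f), h3, Polynomial.eval_zero]

end

end Pool.Agent.Lib.BrSym
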