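import Pool.Agent.Lib.MP_97e538_al.Lone

open MvPolynomial

namespace Pool.Agent.Lib.BrSym

noncomputable section

variable {g : ℕ}

/-- generator data of a homogeneous 1-cocycle -/
structure Gen (g k : ℕ) (m : ℕ → MvPolynomial (Fin (2 * g)) ℝ) : Prop where
  hom : ∀ i, i ≤ 2 * g → (m i).IsHomogeneous k
  comm : ∀ i j, i + 2 ≤ j → j ≤ 2 * g →
    m i + twist g i (m j) = m j + twist g j (m i)
  braid : ∀ i, i + 1 ≤ 2 * g →
    m i + twist g i (m (i + 1)) + twist g i (twist g (i + 1) (m i)) =
      m (i + 1) + twist g (i + 1) (m i) + twist g (i + 1) (twist g i (m (i + 1)))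

theorem twist_C (i : ℕ) (a : ℝ) : twist g i (C a) = C a := by
  rw [← algebraMap_eq, AlgHom.commutes]

/-- the twist induced on polynomials without `X_0` -/
theorem eps_twist {l : ℕ} (hl : 2 ≤ l) (f : MvPolynomial (Fin (2 * g)) ℝ) :
    eps g 0 (twist g l f) =
      gtw (fun j : Fin (2 * g) => om l j) (eps g 0 (cls g l)) (eps g 0 f) := by
  have : (eps g 0).comp (twist g l) =
      (gtw (fun j : Fin (2 * g) => om l j) (eps g 0 (cls g l))).comp (eps g 0) := by
    apply algHom_ext
    intro j
    rw [AlgHom.comp_apply, AlgHom.comp_apply, twist_X, map_add, map_mul, eps_C, eps_X]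
    split_ifs with h
    · rw [h, om_far (by omega), map_zero, map_zero]; simp
    · rw [gtw_X]
  exact DFunLike.congr_fun this f

theorem eps_cls_ne (hg : 2 ≤ g) {l : ℕ} (hl : 2 ≤ l) (hl2 : l ≤ 2 * g) :
    eps g 0 (cls g l) ≠ 0 := by
  rcases Nat.lt_or_ge l (2 * g) with h | h
  · rw [cls_lt h, eps_X, if_neg (by show ¬ l = 0; omega)]
    exact X_ne_zero _
  · have : l = 2 * g := by omega
    subst this
    intro h0
    have h1 := congrArg (eval fun j : Fin (2 * g) => if j.1 = 2 then (1 : ℝ) else 0) h0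
    rw [cls_last] at h1
    simp only [map_neg, map_sum, eps_X, map_zero, neg_eq_zero] at h1
    rw [Finset.sum_eq_single (⟨1, by omega⟩ : Fin g)] at h1
    · simp at h1
    · intro b _ hb
      have hb2 : b.1 ≠ 1 := fun h => hb (Fin.ext h)
      split_ifs with h2
      · simp
      · rw [eval_X, if_neg]
        show ¬ (2 * b.1 = 2)
        omega
    · intro h; exact absurd (Finset.mem_univ _) h

theorem X0_dvd (hg : 2 ≤ g) {k : ℕ} (hk : k ≠ 0) {m : ℕ → MvPolynomial (Fin (2 * g)) ℝ}
    (H : Gen g k m) : ∃ q, m 0 = X ⟨0, by omega⟩ * q := by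
  have h1 : ∀ l, 1 + 1 ≤ l → l ≤ 2 * g → dd g l (eps g 0 (m 0)) = 0 := by
    intro l hl hl2
    have hc := H.comm 0 l (by omega) hl2
    have hfix : gtw (fun j : Fin (2 * g) => om l j) (eps g 0 (cls g l)) (eps g 0 (m 0)) =
        eps g 0 (m 0) := by
      rw [← eps_twist hl]
      have h2 : twist g l (m 0) - m 0 = twist g 0 (m l) - m l := by
        linear_combination -hc
      have h3 : eps g 0 (twist g 0 (m l)) = eps g 0 (m l) := by
        have : (eps g 0).comp (twist g 0) = eps g 0 := by
          apply algHom_ext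
          intro j
          rw [AlgHom.comp_apply, twist_X, map_add, map_mul, eps_C, cls_lt (by omega : 0 < 2 * g),
            eps_X, eps_X, if_pos rfl]
          simp
        exact DFunLike.congr_fun this (m l)
      have h4 := congrArg (eps g 0) h2
      rw [map_sub, map_sub, h3, sub_self, sub_eq_zero] at h4
      exact h4
    have hu : gtw (fun j : Fin (2 * g) => om l j) (eps g 0 (cls g l)) (eps g 0 (cls g l)) =
        eps g 0 (cls g l) := by
      rw [← eps_twist hl, twist_cls_self hl2]
    exact gdd_of_gtw _ _ hu (eps_cls_ne hg hl hl2) hfix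
  have h2 := pd_of_dd h1
  have h3 : ∀ m', pdn g m' (eps g 0 (m 0)) = 0 := by
    intro m'
    rcases Nat.eq_zero_or_pos m' with h | h
    · subst h; exact pdn_eps 0 _
    · exact h2 m' h
  have h4 := eq_zero_of_pd hk (eps_hom 0 (H.hom 0 (by omega))) h3
  obtain ⟨q, hq⟩ := eps_dvd (by omega : 0 < 2 * g) (m 0)
  rw [h4, sub_zero] at hq
  exact ⟨q, hq⟩

theorem twist_zero_X {j : Fin (2 * g)} (h : j.1 ≠ 1) : twist g 0 (X j) = X j := by
  rw [twist_X]
  unfold om
  rw [if_neg (by omega), if_neg (by omega)]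
  simp

/-- the set of the elements `T_0 n - n` -/
def Im0 (f : MvPolynomial (Fin (2 * g)) ℝ) : Prop := ∃ n, twist g 0 n - n = f

theorem Im0_add {f h : MvPolynomial (Fin (2 * g)) ℝ} (hf : Im0 f) (hh : Im0 h) :
    Im0 (f + h) := by
  obtain ⟨a, ha⟩ := hf
  obtain ⟨b, hb⟩ := hh
  refine ⟨a + b, ?_⟩
  rw [map_add]
  linear_combination ha + hb

theorem Im0_mul {f h : MvPolynomial (Fin (2 * g)) ℝ} (hf : Im0 f) (hh : twist g 0 h = h) :
    Im0 (h * f) := by
  obtain ⟨a, ha⟩ := hf
  refine ⟨h * a, ?_⟩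
  rw [map_mul, hh, ← ha]
  ring

theorem Im0_sum {ι : Type} (s : Finset ι) (F : ι → MvPolynomial (Fin (2 * g)) ℝ)
    (h : ∀ i ∈ s, Im0 (F i)) : Im0 (∑ i ∈ s, F i) := by
  classical
  induction s using Finset.induction_on with
  | empty => exact ⟨0, by simp⟩
  | insert a s ha ih =>
    rw [Finset.sum_insert ha]
    exact Im0_add (h a (Finset.mem_insert_self _ _))
      (ih fun i hi => h i (Finset.mem_insert_of_mem hi))

theorem Im0_pow (hg : 2 ≤ g) (a : ℕ) :
    Im0 (X (⟨0, by omega⟩ : Fin (2 * g)) * X (⟨1, by omega⟩ : Fin (2 * g)) ^ a :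
      MvPolynomial (Fin (2 * g)) ℝ) := by
  induction a using Nat.strong_induction_on with
  | _ a ih =>
    set x : MvPolynomial (Fin (2 * g)) ℝ := X (⟨0, by omega⟩ : Fin (2 * g)) with hx
    set y : MvPolynomial (Fin (2 * g)) ℝ := X (⟨1, by omega⟩ : Fin (2 * g)) with hy
    have hx0 : twist g 0 x = x := twist_zero_X (by simp)
    have hy0 : twist g 0 y = y + x := by
      rw [hy, twist_X]
      show X _ + C (om 0 1) * cls g 0 = _
      rw [om_succ, cls_lt (by omega : 0 < 2 * g)]
      simp [hx]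
    have e1 : (y + x) ^ (a + 1) = ∑ m ∈ Finset.range a,
        y ^ m * x ^ (a + 1 - m) * ((a + 1).choose m : MvPolynomial (Fin (2 * g)) ℝ) +
        y ^ a * x * ((a + 1 : ℕ) : MvPolynomial (Fin (2 * g)) ℝ) + y ^ (a + 1) := by
      rw [add_pow, Finset.sum_range_succ, Finset.sum_range_succ]
      rw [Nat.sub_self, Nat.choose_self, Nat.choose_succ_self_right]
      have : a + 1 - a = 1 := by omega
      rw [this]; simp
    have e2 : Im0 (∑ m ∈ Finset.range a,
        -(y ^ m * x ^ (a + 1 - m) * ((a + 1).choose m : MvPolynomial (Fin (2 * g)) ℝ))) := by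
      apply Im0_sum
      intro m hm
      have hm' := Finset.mem_range.1 hm
      have h3 := Im0_mul (ih m hm')
        (h := -(x ^ (a - m) * ((a + 1).choose m : MvPolynomial (Fin (2 * g)) ℝ)))
        (by rw [map_neg, map_mul, map_pow, hx0, map_natCast])
      have h4 : a + 1 - m = (a - m) + 1 := by omega
      rw [h4, pow_succ]
      convert h3 using 1
      ring
    have e3 : Im0 ((y + x) ^ (a + 1) - y ^ (a + 1)) := ⟨y ^ (a + 1), by rw [map_pow, hy0]⟩
    have e4 := Im0_add e3 e2
    have e5 := Im0_mul e4 (h := C (((a + 1 : ℕ) : ℝ)⁻¹)) (twist_C 0 _)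
    convert e5 using 1
    rw [e1, Finset.sum_neg_distrib]
    have e6 : C (((a + 1 : ℕ) : ℝ)⁻¹) * ((a + 1 : ℕ) : MvPolynomial (Fin (2 * g)) ℝ) = 1 := by
      rw [← map_natCast (C : ℝ →+* MvPolynomial (Fin (2 * g)) ℝ), ← map_mul,
        inv_mul_cancel₀ (Nat.cast_ne_zero.2 (Nat.succ_ne_zero a)), map_one]
    linear_combination (-(x * y ^ a)) * e6

theorem Im0_all (hg : 2 ≤ g) (f : MvPolynomial (Fin (2 * g)) ℝ) :
    Im0 (X (⟨0, by omega⟩ : Fin (2 * g)) * f) := by
  have key : ∀ a : ℕ, Im0 (X (⟨0, by omega⟩ : Fin (2 * g)) *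
      X (⟨1, by omega⟩ : Fin (2 * g)) ^ a * f) := by
    induction f using MvPolynomial.induction_on with
    | C r =>
      intro a
      have := Im0_mul (Im0_pow hg a) (h := C r) (twist_C 0 _)
      convert this using 1
      ring
    | add p q hp hq =>
      intro a
      have := Im0_add (hp a) (hq a)
      convert this using 1
      ring
    | mul_X p j hp =>
      intro a
      by_cases hj : j.1 = 1
      · have h1 : j = ⟨1, by omega⟩ := Fin.ext hj
        have := hp (a + 1)
        convert this using 1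
        rw [h1]; ring
      · have := Im0_mul (hp a) (h := X j) (twist_zero_X hj)
        convert this using 1
        ring
  have := key 0
  rwa [pow_zero, mul_one] at this

/-- every generator value is of the form `T_i n_i - n_i` -/
theorem exists_n (hg : 2 ≤ g) {k : ℕ} (hk : k ≠ 0) {m : ℕ → MvPolynomial (Fin (2 * g)) ℝ}
    (H : Gen g k m) : ∃ n : ℕ → MvPolynomial (Fin (2 * g)) ℝ, ∀ i, i ≤ 2 * g →
      (n i).IsHomogeneous k ∧ m i = twist g i (n i) - n i := by
  have key : ∀ i, i ≤ 2 * g → ∃ n : MvPolynomial (Fin (2 * g)) ℝ,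
      n.IsHomogeneous k ∧ m i = twist g i n - n := by
    intro i
    induction i with
    | zero =>
      intro _
      obtain ⟨q, hq⟩ := X0_dvd hg hk H
      obtain ⟨n, hn⟩ := Im0_all hg q
      refine ⟨homogeneousComponent k n, homogeneousComponent_isHomogeneous _ _, ?_⟩
      rw [← hc_twist, ← map_sub, hn, ← hq, homogeneousComponent_of_mem (H.hom 0 (by omega)),
        if_pos rfl]
    | succ i ih =>
      intro hi
      obtain ⟨n, hn, hm⟩ := ih (by omega)
      refine ⟨twist g i (twist g (i + 1) n) - m i - twist g i (m (i + 1)),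
        ((twist_hom _ (twist_hom _ hn)).sub (H.hom i (by omega))).sub
          (twist_hom _ (H.hom (i + 1) hi)), ?_⟩
      have hb := H.braid i hi
      have h1 := twist_braid hi n
      have h2 := congrArg (fun z => twist g i (twist g (i + 1) z)) hm
      simp only [map_sub] at h2 ⊢
      linear_combination -hb + h2 + h1
  classical
  refine ⟨fun i => if h : i ≤ 2 * g then (key i h).choose else 0, fun i hi => ?_⟩
  simp only [dif_pos hi]
  exact (key i hi).choose_spec

end

end Pool.Agent.Lib.BrSym
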