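import Pool.Agent.Lib.MP_97e538_al.StepA

open MvPolynomial

namespace Pool.Agent.Lib.BrSym

noncomputable section

variable {g : ℕ}

/-- commuting generators give equal mixed derivatives -/
theorem mixed_comm (hg : 2 ≤ g) {k : ℕ} {m n : ℕ → MvPolynomial (Fin (2 * g)) ℝ}
    (H : Gen g k m) (hn : ∀ i, i ≤ 2 * g → m i = twist g i (n i) - n i) {i j : ℕ}
    (hij : i + 2 ≤ j) (hj : j ≤ 2 * g) :
    dd g i (dd g j (n i)) = dd g i (dd g j (n j)) := by
  have hc := H.comm i j hij hj
  have hi : i ≤ 2 * g := by omega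
  have o1 : om i j = 0 := om_far (by omega)
  have o2 : om j i = 0 := om_far (by omega)
  set f := n i - n j with hf
  have h1 : twist g i (twist g j f - f) = twist g j f - f := by
    rw [hn i hi, hn j hj] at hc
    simp only [map_sub] at hc ⊢
    rw [hf]
    simp only [map_sub]
    have h2 := twist_comm hi hj o1 (n i)
    linear_combination -hc + h2
  have h2 := dd_of_fixed (by omega) hi h1
  rw [map_sub, dd_twist j i hj hi, o2, map_zero, zero_mul, sub_zero, sub_eq_zero] at h2
  have h3 := dd_of_fixed (by omega) hj h2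
  rw [hf, map_sub, map_sub, sub_eq_zero, dd_dd_comm j i, dd_dd_comm j i] at h3
  exact h3

/-- the transition by `σ_i σ_{i+1} σ_{i+2}` -/
def GG (g : ℕ) (f : MvPolynomial (Fin (2 * g)) ℝ) : MvPolynomial (Fin (2 * g)) ℝ :=
  twist g 0 (twist g 1 (twist g 2 f))

theorem dd_GG_one (hg : 2 ≤ g) (f : MvPolynomial (Fin (2 * g)) ℝ) :
    dd g 1 (GG g f) = -GG g (dd g 0 f) := by
  unfold GG
  have o01 : om 0 1 = 1 := om_succ 0
  have o10 : om 1 0 = -1 := om_succ' 0
  have o11 : om 1 1 = 0 := om_self 1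
  have o21 : om 2 1 = -1 := om_succ' 1
  have o20 : om 2 0 = 0 := om_far (by omega)
  have h1 := dd_twist 0 1 (by omega) (by omega) (twist g 1 (twist g 2 f))
  have h2 := dd_twist 1 1 (by omega) (by omega) (twist g 2 f)
  have h3 := dd_twist 1 0 (by omega) (by omega) (twist g 2 f)
  have h4 := dd_twist 2 0 (by omega) (by omega) f
  rw [o01] at h1
  rw [o11] at h2
  rw [o10] at h3
  rw [o20] at h4
  rw [h1, h2, h3, h4]
  simp only [map_sub, map_zero, map_one, map_neg, zero_mul, sub_zero, map_add, map_mul,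
    neg_mul, one_mul, sub_neg_eq_add]
  ring

theorem dd_GG_two (hg : 2 ≤ g) (f : MvPolynomial (Fin (2 * g)) ℝ) :
    dd g 2 (GG g f) = -GG g (dd g 1 f) := by
  unfold GG
  have o02 : om 0 2 = 0 := om_far (by omega)
  have o12 : om 1 2 = 1 := om_succ 1
  have o22 : om 2 2 = 0 := om_self 2
  have o21 : om 2 1 = -1 := om_succ' 1
  have h1 := dd_twist 0 2 (by omega) (by omega) (twist g 1 (twist g 2 f))
  have h2 := dd_twist 1 2 (by omega) (by omega) (twist g 2 f)
  have h3 := dd_twist 2 2 (by omega) (by omega) f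
  have h4 := dd_twist 2 1 (by omega) (by omega) f
  rw [o02] at h1
  rw [o12] at h2
  rw [o22] at h3
  rw [o21] at h4
  rw [h1, h2, h3, h4]
  simp only [map_sub, map_zero, map_one, map_neg, zero_mul, sub_zero, map_add, map_mul,
    neg_mul, one_mul, sub_neg_eq_add]
  ring

theorem dd_GG_sum (hg : 2 ≤ g) (f : MvPolynomial (Fin (2 * g)) ℝ) :
    dd g 0 (GG g f) + dd g 1 (GG g f) + dd g 2 (GG g f) + dd g 3 (GG g f) =
      GG g (dd g 3 f) := by
  rw [dd_GG_one hg, dd_GG_two hg]
  unfold GG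
  have o00 : om 0 0 = 0 := om_self 0
  have o10 : om 1 0 = -1 := om_succ' 0
  have o21 : om 2 1 = -1 := om_succ' 1
  have o20 : om 2 0 = 0 := om_far (by omega)
  have o03 : om 0 3 = 0 := om_far (by omega)
  have o13 : om 1 3 = 0 := om_far (by omega)
  have o23 : om 2 3 = 1 := om_succ 2
  have h1 := dd_twist 0 0 (by omega) (by omega) (twist g 1 (twist g 2 f))
  have h2 := dd_twist 1 0 (by omega) (by omega) (twist g 2 f)
  have h3 := dd_twist 2 0 (by omega) (by omega) f
  have h4 := dd_twist 2 1 (by omega) (by omega) f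
  have h5 := dd_twist 0 3 (by omega) (by omega) (twist g 1 (twist g 2 f))
  have h6 := dd_twist 1 3 (by omega) (by omega) (twist g 2 f)
  have h7 := dd_twist 2 3 (by omega) (by omega) f
  rw [o00] at h1
  rw [o10] at h2
  rw [o20] at h3
  rw [o21] at h4
  rw [o03] at h5
  rw [o13] at h6
  rw [o23] at h7
  rw [h1, h2, h3, h4, h5, h6, h7]
  simp only [map_sub, map_zero, map_one, map_neg, zero_mul, sub_zero, map_add, map_mul,
    neg_mul, one_mul, sub_neg_eq_add]
  ring

theorem GG_twist_zero (hg : 2 ≤ g) (f : MvPolynomial (Fin (2 * g)) ℝ) :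
    GG g (twist g 0 f) = twist g 1 (GG g f) := by
  unfold GG
  rw [← twist_comm (i := 0) (j := 2) (by omega) (by omega) (om_far (by omega)) f]
  have := twist_braid (g := g) (i := 0) (by omega) (twist g 2 f)
  rw [zero_add] at this
  exact this

theorem GG_twist_one (hg : 2 ≤ g) (f : MvPolynomial (Fin (2 * g)) ℝ) :
    GG g (twist g 1 f) = twist g 2 (GG g f) := by
  unfold GG
  rw [twist_braid (g := g) (i := 1) (by omega) f]
  exact twist_comm (i := 0) (j := 2) (by omega) (by omega) (om_far (by omega)) _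

theorem GG_sub (f h : MvPolynomial (Fin (2 * g)) ℝ) : GG g (f - h) = GG g f - GG g h := by
  unfold GG; simp only [map_sub]

/-- the two elements `κ_0`, `κ_1` -/
theorem kappa (hg : 2 ≤ g) {k : ℕ} {m n : ℕ → MvPolynomial (Fin (2 * g)) ℝ}
    (H : Gen g k m) (hn : ∀ i, i ≤ 2 * g → m i = twist g i (n i) - n i) :
    dd g 0 (dd g 1 (dd g 0 (dd g 1 (n 0 - n 1)))) = 0 ∧
      ∀ l, 3 ≤ l → l ≤ 2 * g → dd g l (dd g 0 (dd g 1 (n 0 - n 1))) = 0 := by
  set κ0 := dd g 0 (dd g 1 (n 0 - n 1)) with hκ0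
  set κ1 := dd g 1 (dd g 2 (n 1 - n 2)) with hκ1
  have hA : ∀ l, 3 ≤ l → l ≤ 2 * g → dd g l κ0 = 0 := by
    intro l hl hl2
    have h1 := mixed_comm hg H hn (i := 0) (j := l) (by omega) hl2
    have h2 := mixed_comm hg H hn (i := 1) (j := l) (by omega) hl2
    rw [hκ0, map_sub, map_sub, map_sub]
    rw [dd_dd_comm l 0, dd_dd_comm l 1, dd_dd_comm 0 1, dd_dd_comm l 0, dd_dd_comm l 1, h2,
      h1, dd_dd_comm 0 1]
    ring
  have hB : ∀ l, 4 ≤ l → l ≤ 2 * g → dd g l κ1 = 0 := by
    intro l hl hl2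
    have h1 := mixed_comm hg H hn (i := 1) (j := l) (by omega) hl2
    have h2 := mixed_comm hg H hn (i := 2) (j := l) (by omega) hl2
    rw [hκ1, map_sub, map_sub, map_sub]
    rw [dd_dd_comm l 1, dd_dd_comm l 2, dd_dd_comm 1 2, dd_dd_comm l 1, dd_dd_comm l 2, h2,
      h1, dd_dd_comm 1 2]
    ring
  -- transition
  set c := m 0 + twist g 0 (m 1) + twist g 0 (twist g 1 (m 2)) with hc
  have hb0 := H.braid 0 (by omega)
  have hb1 := H.braid 1 (by omega)
  have hc02 := H.comm 0 2 (by omega) (by omega)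
  rw [zero_add] at hb0
  norm_num only at hb1
  have t1 : m 1 + twist g 1 c = c + GG g (m 0) := by
    rw [hc]; unfold GG
    simp only [map_add]
    have e1 := twist_braid (g := g) (i := 0) (by omega) (m 2)
    rw [zero_add] at e1
    have e2 := congrArg (fun z => twist g 0 (twist g 1 z)) hc02
    simp only [map_add] at e2
    linear_combination -hb0 - e1 + e2
  have t2 : m 2 + twist g 2 c = c + GG g (m 1) := by
    rw [hc]; unfold GG
    simp only [map_add]
    have e1 := congrArg (fun z => twist g 0 z) hb1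
    simp only [map_add] at e1
    have e2 := twist_comm (g := g) (i := 0) (j := 2) (by omega) (by omega)
      (om_far (by omega)) (m 1)
    have e3 := twist_comm (g := g) (i := 0) (j := 2) (by omega) (by omega)
      (om_far (by omega)) (twist g 1 (m 2))
    linear_combination -hc02 - e1 - e2 - e3
  have u1 : dd g 1 (n 1 + c - GG g (n 0)) = 0 := by
    apply dd_of_fixed (by omega) (by omega)
    have e1 := GG_twist_zero hg (n 0)
    have e2 := hn 0 (by omega)
    have e3 := hn 1 (by omega)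
    rw [e2, GG_sub] at t1
    rw [map_sub, map_add]
    linear_combination t1 + e1 - e3
  have u2 : dd g 2 (n 2 + c - GG g (n 1)) = 0 := by
    apply dd_of_fixed (by omega) (by omega)
    have e1 := GG_twist_one hg (n 1)
    have e2 := hn 1 (by omega)
    have e3 := hn 2 (by omega)
    rw [e2, GG_sub] at t2
    rw [map_sub, map_add]
    linear_combination t2 + e1 - e3
  have hC : κ1 = GG g κ0 := by
    have e1 := congrArg (dd g 2) u1
    have e2 := congrArg (dd g 1) u2
    simp only [map_sub, map_add, map_zero, dd_GG_one hg, dd_GG_two hg, map_neg] at e1 e2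
    rw [hκ1, hκ0]
    simp only [map_sub, GG_sub]
    have e3 := dd_dd_comm (g := g) 2 1 (n 1)
    have e4 := dd_dd_comm (g := g) 2 1 c
    have e5 := dd_dd_comm (g := g) 1 0 (n 0)
    have e6 : GG g (dd g 1 (dd g 0 (n 0))) = GG g (dd g 0 (dd g 1 (n 0))) := by rw [e5]
    linear_combination e1 - e2 - e3 - e4 + e6
  have hD : dd g 0 κ1 + dd g 1 κ1 + dd g 2 κ1 + dd g 3 κ1 = 0 := by
    rw [hC, dd_GG_sum hg, hA 3 (by omega) (by omega)]
    unfold GG; simp
  have hE : dd g 2 κ0 + dd g 0 κ1 = 0 := by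
    have h1 := mixed_comm hg H hn (i := 0) (j := 2) (by omega) (by omega)
    have h2 := congrArg (dd g 1) h1
    rw [hκ0, hκ1]
    simp only [map_sub]
    have e1 : ∀ z, dd g 2 (dd g 0 (dd g 1 z)) = dd g 1 (dd g 0 (dd g 2 z)) := fun z => by
      rw [dd_dd_comm 0 1, dd_dd_comm 2 1, dd_dd_comm 2 0]
    have e2 : ∀ z, dd g 0 (dd g 1 (dd g 2 z)) = dd g 1 (dd g 0 (dd g 2 z)) := fun z => by
      rw [dd_dd_comm 0 1]
    rw [e1, e1, e2, e2]
    linear_combination h2
  -- sums over even indices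
  have hS : ∀ z, (∀ l, 4 ≤ l → l ≤ 2 * g → dd g l z = 0) → dd g 0 z + dd g 2 z = 0 := by
    intro z hz
    have h1 := sum_dd (g := g) z
    obtain ⟨r, rfl⟩ : ∃ r, g = r + 1 := ⟨g - 1, by omega⟩
    rw [Finset.sum_range_succ', Finset.sum_range_succ', Finset.sum_eq_zero] at h1
    · simpa [add_comm] using h1
    · intro j hj
      have := Finset.mem_range.1 hj
      exact hz _ (by omega) (by omega)
  have hF := hS κ0 fun l hl hl2 => hA l (by omega) hl2
  have hG := hS κ1 hB
  have hH : dd g 1 κ1 = -dd g 3 κ1 := by linear_combination hD - hG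
  have hI : dd g 0 κ0 = dd g 0 κ1 := by linear_combination hF - hE
  refine ⟨?_, hA⟩
  rw [dd_dd_comm 0 1, hI, dd_dd_comm 1 0, hH, map_neg, dd_dd_comm 0 3, ← hI, dd_dd_comm 3 0,
    hA 3 (by omega) (by omega), map_zero, neg_zero]

end

end Pool.Agent.Lib.BrSym
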