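import Pool.Agent.Lib.MP_97e538_al.StepB

open MvPolynomial

namespace Pool.Agent.Lib.BrSym

noncomputable section

variable {g : ℕ}

theorem pdn_comm (i j : ℕ) (f : MvPolynomial (Fin (2 * g)) ℝ) :
    pdn g i (pdn g j f) = pdn g j (pdn g i f) := by
  have : ⁅pdn g i, pdn g j⁆ = 0 := by
    apply MvPolynomial.derivation_ext
    intro m
    rw [Derivation.commutator_apply, pdn_X, pdn_X]
    have h : ∀ (a : ℕ) (b : Prop) [Decidable b],
        pdn g a (if b then (1 : MvPolynomial (Fin (2 * g)) ℝ) else 0) = 0 := by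
      intro a b _
      split_ifs
      · exact Derivation.map_one_eq_zero _
      · exact map_zero _
    rw [h, h]; simp
  have h2 := DFunLike.congr_fun this f
  rw [Derivation.commutator_apply] at h2
  simpa [sub_eq_zero] using h2

/-- homogeneous polynomials in one variable -/
theorem one_var {j : ℕ} (hj : j < 2 * g) (n : ℕ) : ∀ f : MvPolynomial (Fin (2 * g)) ℝ,
    f.IsHomogeneous n → (∀ m, m ≠ j → pdn g m f = 0) →
    ∃ a : ℝ, f = C a * X ⟨j, hj⟩ ^ n := by
  induction n with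
  | zero =>
    intro f hf _
    have h1 := (totalDegree_zero_iff_isHomogeneous _).2 hf
    rw [totalDegree_eq_zero_iff_eq_C] at h1
    exact ⟨coeff 0 f, by rw [pow_zero, mul_one]; exact h1⟩
  | succ n ih =>
    intro f hf hm
    obtain ⟨a, ha⟩ := ih (pdn g j f) (by have := pdn_hom j hf; simpa using this) (by
      intro m hmj
      rw [pdn_comm, hm m hmj, map_zero])
    have h1 := hf.sum_X_mul_pderiv
    rw [Finset.sum_eq_single (⟨j, hj⟩ : Fin (2 * g))] at h1
    · rw [← pdn_lt hj, ha, nsmul_eq_mul] at h1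
      refine ⟨((n + 1 : ℕ) : ℝ)⁻¹ * a, ?_⟩
      have e6 : C (((n + 1 : ℕ) : ℝ)⁻¹) * ((n + 1 : ℕ) : MvPolynomial (Fin (2 * g)) ℝ) =
          1 := by
        rw [← map_natCast (C : ℝ →+* MvPolynomial (Fin (2 * g)) ℝ), ← map_mul,
          inv_mul_cancel₀ (Nat.cast_ne_zero.2 (Nat.succ_ne_zero n)), map_one]
      rw [map_mul]
      linear_combination -f * e6 - C (((n + 1 : ℕ) : ℝ)⁻¹) * h1
    · intro i _ hi
      rw [← pdn_lt i.2, hm i.1 (fun h => hi (Fin.ext h)), mul_zero]
    · intro h; exact absurd (Finset.mem_univ _) h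

/-- shape of `κ_0` -/
theorem kappa_shape (hg : 2 ≤ g) {d : ℕ} {κ : MvPolynomial (Fin (2 * g)) ℝ}
    (hκ : κ.IsHomogeneous d) (h1 : dd g 0 (dd g 1 κ) = 0)
    (h2 : ∀ l, 3 ≤ l → l ≤ 2 * g → dd g l κ = 0) :
    ∃ a b : ℝ, (d = 0 → b = 0) ∧ κ = C a * X (⟨0, by omega⟩ : Fin (2 * g)) ^ d +
      C b * X (⟨1, by omega⟩ : Fin (2 * g)) ^ d := by
  have h3 := pd_of_dd (m0 := 2) (f := κ) h2
  have h4 : pdn g 1 (pdn g 0 κ) = 0 := by
    rw [dd_succ' 0, h3 _ (by omega), zero_sub, map_neg, dd_zero', neg_eq_zero] at h1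
    exact h1
  rcases Nat.eq_zero_or_pos d with hd | hd
  · subst hd
    have h5 := (totalDegree_zero_iff_isHomogeneous _).2 hκ
    rw [totalDegree_eq_zero_iff_eq_C] at h5
    refine ⟨coeff 0 κ, 0, fun _ => rfl, ?_⟩
    rw [pow_zero, mul_one, map_zero, zero_mul, add_zero]
    exact h5
  · obtain ⟨e, rfl⟩ : ∃ e, d = e + 1 := ⟨d - 1, by omega⟩
    obtain ⟨a, ha⟩ := one_var (j := 0) (by omega) e (pdn g 0 κ)
      (by have := pdn_hom 0 hκ; simpa using this) (by
        intro m hm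
        rcases Nat.lt_or_ge m 2 with h | h
        · have : m = 1 := by omega
          rw [this, h4]
        · rw [pdn_comm, h3 m h, map_zero])
    obtain ⟨b, hb⟩ := one_var (j := 1) (by omega) e (pdn g 1 κ)
      (by have := pdn_hom 1 hκ; simpa using this) (by
        intro m hm
        rcases Nat.lt_or_ge m 2 with h | h
        · have : m = 0 := by omega
          rw [this, pdn_comm, h4]
        · rw [pdn_comm, h3 m h, map_zero])
    have h5 := hκ.sum_X_mul_pderiv
    rw [Finset.sum_eq_add (⟨0, by omega⟩ : Fin (2 * g)) ⟨1, by omega⟩ (by simp)] at h5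
    · rw [← pdn_lt (by omega : 0 < 2 * g), ← pdn_lt (by omega : 1 < 2 * g), ha, hb,
        nsmul_eq_mul] at h5
      refine ⟨((e + 1 : ℕ) : ℝ)⁻¹ * a, ((e + 1 : ℕ) : ℝ)⁻¹ * b, by omega, ?_⟩
      have e6 : C (((e + 1 : ℕ) : ℝ)⁻¹) * ((e + 1 : ℕ) : MvPolynomial (Fin (2 * g)) ℝ) =
          1 := by
        rw [← map_natCast (C : ℝ →+* MvPolynomial (Fin (2 * g)) ℝ), ← map_mul,
          inv_mul_cancel₀ (Nat.cast_ne_zero.2 (Nat.succ_ne_zero e)), map_one]
      rw [map_mul, map_mul]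
      linear_combination -κ * e6 - C (((e + 1 : ℕ) : ℝ)⁻¹) * h5
    · intro i _ hi
      rw [← pdn_lt i.2, h3 i.1, mul_zero]
      have h6 : i.1 ≠ 0 := fun h => hi.1 (Fin.ext h)
      have h7 : i.1 ≠ 1 := fun h => hi.2 (Fin.ext h)
      omega
    · intro h; exact absurd (Finset.mem_univ _) h
    · intro h; exact absurd (Finset.mem_univ _) h

/-- splitting an element killed by `dd_0 dd_1` -/
theorem split01 {k : ℕ} {f : MvPolynomial (Fin (2 * g)) ℝ} (hf : f.IsHomogeneous k)
    (h : dd g 0 (dd g 1 f) = 0) : ∃ a b : MvPolynomial (Fin (2 * g)) ℝ, f = a + b ∧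
      a.IsHomogeneous k ∧ b.IsHomogeneous k ∧ dd g 0 a = 0 ∧ dd g 1 b = 0 := by
  refine ⟨eps g 1 f, f - eps g 1 f, by ring, eps_hom 1 hf, hf.sub (eps_hom 1 hf), ?_, ?_⟩
  · rw [dd_zero', pdn_eps]
  · rw [map_sub, dd_eps (om_self 1), eps_fix (by rw [← dd_zero']; exact h), sub_self]

/-- the alternating operator -/
def Alt (g : ℕ) (f : MvPolynomial (Fin (2 * g)) ℝ) : MvPolynomial (Fin (2 * g)) ℝ :=
  f - twist g 0 f - twist g 1 f + twist g 0 (twist g 1 f) + twist g 1 (twist g 0 f) -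
    twist g 0 (twist g 1 (twist g 0 f))

theorem Alt_add (f h : MvPolynomial (Fin (2 * g)) ℝ) : Alt g (f + h) = Alt g f + Alt g h := by
  unfold Alt; simp only [map_add]; ring

theorem Alt_mul_C (a : ℝ) (f : MvPolynomial (Fin (2 * g)) ℝ) :
    Alt g (C a * f) = C a * Alt g f := by
  unfold Alt; simp only [map_mul, twist_C]; ring

theorem Alt_kill (hg : 2 ≤ g) {k : ℕ} {f : MvPolynomial (Fin (2 * g)) ℝ}
    (hf : f.IsHomogeneous k) (h : dd g 0 (dd g 1 f) = 0) : Alt g f = 0 := by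
  obtain ⟨a, b, rfl, _, _, ha, hb⟩ := split01 hf h
  have h1 := fixed_of_dd 0 ha
  have h2 := fixed_of_dd 1 hb
  have h3 := twist_braid (g := g) (i := 0) (by omega) b
  rw [zero_add] at h3
  rw [Alt_add]
  unfold Alt
  rw [h1, h2, h3, h2]
  ring

theorem Alt_n (hg : 2 ≤ g) {k : ℕ} {m n : ℕ → MvPolynomial (Fin (2 * g)) ℝ}
    (H : Gen g k m) (hn : ∀ i, i ≤ 2 * g → m i = twist g i (n i) - n i) :
    Alt g (n 0 - n 1) = 0 := by
  have hb := H.braid 0 (by omega)
  rw [zero_add, hn 0 (by omega), hn 1 (by omega)] at hb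
  have h3 := twist_braid (g := g) (i := 0) (by omega) (n 1)
  rw [zero_add] at h3
  unfold Alt
  simp only [map_sub] at hb ⊢
  linear_combination -hb + h3

/-- `κ_0 = 0` -/
theorem kappa_zero (hg : 2 ≤ g) {k : ℕ} (hk : 2 ≤ k) {m n : ℕ → MvPolynomial (Fin (2 * g)) ℝ}
    (H : Gen g k m) (hn : ∀ i, i ≤ 2 * g → (n i).IsHomogeneous k ∧
      m i = twist g i (n i) - n i) : dd g 0 (dd g 1 (n 0 - n 1)) = 0 := by
  obtain ⟨d, rfl⟩ : ∃ d, k = d + 2 := ⟨k - 2, by omega⟩
  have hhom : (n 0 - n 1).IsHomogeneous (d + 2) :=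
    (hn 0 (by omega)).1.sub (hn 1 (by omega)).1
  have hk1 := kappa hg H fun i hi => (hn i hi).2
  have hκhom : (dd g 0 (dd g 1 (n 0 - n 1))).IsHomogeneous d := by
    have := dd_hom 0 (dd_hom 1 hhom)
    simpa using this
  obtain ⟨a, b, hb0, hshape⟩ := kappa_shape hg hκhom hk1.1 hk1.2
  set x : MvPolynomial (Fin (2 * g)) ℝ := X (⟨0, by omega⟩ : Fin (2 * g)) with hx
  set y : MvPolynomial (Fin (2 * g)) ℝ := X (⟨1, by omega⟩ : Fin (2 * g)) with hy
  have t0x : twist g 0 x = x := twist_zero_X (by simp)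
  have t0y : twist g 0 y = y + x := by
    rw [hy, twist_X]
    show X _ + C (om 0 1) * cls g 0 = _
    rw [om_succ, cls_lt (by omega : 0 < 2 * g)]
    simp [hx]
  have t1x : twist g 1 x = x - y := by
    rw [hx, twist_X]
    show X _ + C (om (0 + 1) 0) * cls g 1 = _
    rw [om_succ', cls_lt (by omega : 1 < 2 * g)]
    simp [hy]
    ring
  have t1y : twist g 1 y = y := by
    rw [hy, twist_X]
    show X _ + C (om 1 1) * cls g 1 = _
    rw [om_self]
    simp
  have d0x : dd g 0 x = 0 := by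
    rw [hx, dd_X]; show C (om 0 0) = 0; rw [om_self, map_zero]
  have d0y : dd g 0 y = 1 := by
    rw [hy, dd_X]; show C (om 0 1) = 1; rw [om_succ, map_one]
  have d1x : dd g 1 x = -1 := by
    rw [hx, dd_X]; show C (om (0 + 1) 0) = -1; rw [om_succ', map_neg, map_one]
  have d1y : dd g 1 y = 0 := by
    rw [hy, dd_X]; show C (om 1 1) = 0; rw [om_self, map_zero]
  set w : MvPolynomial (Fin (2 * g)) ℝ := C a * (x ^ (d + 1) * y) + C b * (x * y ^ (d + 1))
    with hw
  have hwhom : w.IsHomogeneous (d + 2) := by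
    rw [hw]
    refine IsHomogeneous.add (IsHomogeneous.C_mul ?_ _) (IsHomogeneous.C_mul ?_ _)
    · exact (isHomogeneous_X_pow _ _).mul (isHomogeneous_X _ _)
    · have := (isHomogeneous_X ℝ (⟨0, by omega⟩ : Fin (2 * g))).mul
        (isHomogeneous_X_pow (R := ℝ) (⟨1, by omega⟩ : Fin (2 * g)) (d + 1))
      rw [show d + 2 = 1 + (d + 1) by omega]
      exact this
  have hdw : dd g 0 (dd g 1 w) = -(C ((d + 1 : ℕ) : ℝ)) * (C a * x ^ d + C b * y ^ d) := by
    rw [hw]
    simp only [map_add, Derivation.leibniz, Derivation.leibniz_pow, smul_eq_mul, dd_C, d0x,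
      d0y, d1x, d1y, map_neg, Derivation.map_one_eq_zero, mul_zero, add_zero, zero_add,
      map_natCast, nsmul_eq_mul, mul_one, Nat.add_sub_cancel, map_zero, Derivation.map_natCast,
      neg_zero, mul_neg]
    ring
  have hsum : dd g 0 (dd g 1 (C ((d + 1 : ℕ) : ℝ) * (n 0 - n 1) + w)) = 0 := by
    rw [map_add, map_add, hdw, Derivation.leibniz, dd_C, smul_zero, add_zero, smul_eq_mul,
      Derivation.leibniz, dd_C, smul_zero, add_zero, smul_eq_mul, hshape]
    ring
  have hA1 := Alt_kill hg (((hhom).C_mul _).add hwhom) hsum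
  rw [Alt_add, Alt_mul_C, Alt_n hg H (fun i hi => (hn i hi).2), mul_zero, zero_add] at hA1
  have hAw : ∀ p q : ℝ,
      (a * (p ^ (d + 1) * q) + b * (p * q ^ (d + 1))) -
      (a * (p ^ (d + 1) * (q + p)) + b * (p * (q + p) ^ (d + 1))) -
      (a * ((p - q) ^ (d + 1) * q) + b * ((p - q) * q ^ (d + 1))) +
      (a * ((p - (q + p)) ^ (d + 1) * (q + p)) + b * ((p - (q + p)) * (q + p) ^ (d + 1))) +
      (a * ((p - q) ^ (d + 1) * (q + (p - q))) + b * ((p - q) * (q + (p - q)) ^ (d + 1))) -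
      (a * ((p - (q + p)) ^ (d + 1) * (q + p + (p - (q + p)))) +
        b * ((p - (q + p)) * (q + p + (p - (q + p))) ^ (d + 1))) = 0 := by
    intro p q
    have hev := congrArg (eval fun j : Fin (2 * g) =>
      if j.1 = 0 then p else if j.1 = 1 then q else 0) hA1
    have ex : eval (fun j : Fin (2 * g) => if j.1 = 0 then p else if j.1 = 1 then q else 0) x =
        p := by rw [hx, eval_X]; simp
    have ey : eval (fun j : Fin (2 * g) => if j.1 = 0 then p else if j.1 = 1 then q else 0) y =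
        q := by rw [hy, eval_X]; simp
    rw [hw] at hev
    unfold Alt at hev
    simp only [map_sub, map_add, map_mul, map_pow, twist_C, t0x, t0y, t1x, t1y, ex, ey, eval_C,
      map_zero] at hev
    linear_combination hev
  have E1 := hAw 1 1
  have E2 := hAw 1 (-1)
  have z1 : ((1 : ℝ) - 1) ^ (d + 1) = 0 := by rw [sub_self, zero_pow (Nat.succ_ne_zero d)]
  have z2 : ((1 : ℝ) - (1 + 1)) ^ (d + 1) = (-1) ^ (d + 1) := by norm_num
  have z3 : ((1 : ℝ) + 1) ^ (d + 1) = 2 ^ (d + 1) := by norm_num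
  have z4 : ((1 : ℝ) + (1 - 1)) ^ (d + 1) = 1 := by norm_num
  have z5 : ((1 : ℝ) + 1 + (1 - (1 + 1))) ^ (d + 1) = 1 := by norm_num
  have z6 : ((-1 : ℝ) + 1) ^ (d + 1) = 0 := by
    rw [neg_add_cancel, zero_pow (Nat.succ_ne_zero d)]
  have z7 : ((1 : ℝ) - (-1)) ^ (d + 1) = 2 ^ (d + 1) := by norm_num
  have z8 : ((1 : ℝ) - (-1 + 1)) ^ (d + 1) = 1 := by norm_num
  have z9 : ((-1 : ℝ) + (1 - (-1))) ^ (d + 1) = 1 := by norm_num
  have z10 : ((-1 : ℝ) + 1 + (1 - (-1 + 1))) ^ (d + 1) = 1 := by norm_num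
  rw [z1, z2, z3, z4, z5, one_pow] at E1
  rw [z6, z7, z8, z9, z10, one_pow] at E2
  set s : ℝ := (-1) ^ (d + 1) with hs
  set t : ℝ := 2 ^ (d + 1) with ht
  have F1 : -a + s * a + (2 - 2 * t) * b = 0 := by linear_combination E1
  have F2 : (2 * t - 2) * a + (1 - s) * b = 0 := by linear_combination E2
  have ht2 : 2 ≤ t := by
    rw [ht, pow_succ]
    have := one_le_pow₀ (M₀ := ℝ) (a := 2) (n := d) (by norm_num)
    linarith
  have key : a = 0 ∧ b = 0 := by
    rcases Nat.even_or_odd (d + 1) with he | ho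
    · have s1 : s = 1 := he.neg_one_pow
      rw [s1] at F1 F2
      have hb : b = 0 := by
        have : (2 - 2 * t) * b = 0 := by linarith
        rcases mul_eq_zero.1 this with h | h
        · linarith
        · exact h
      have ha : a = 0 := by
        have : (2 * t - 2) * a = 0 := by linarith
        rcases mul_eq_zero.1 this with h | h
        · linarith
        · exact h
      exact ⟨ha, hb⟩
    · have s1 : s = -1 := ho.neg_one_pow
      rw [s1] at F1 F2
      have ha : a = (1 - t) * b := by linarith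
      have hb : b = 0 := by
        rcases Nat.eq_zero_or_pos d with hd | hd
        · exact hb0 hd
        · have ht4 : 4 ≤ t := by
            obtain ⟨e, rfl⟩ : ∃ e, d = e + 1 := ⟨d - 1, by omega⟩
            rw [ht, pow_succ, pow_succ]
            have := one_le_pow₀ (M₀ := ℝ) (a := 2) (n := e) (by norm_num)
            linarith
          rw [ha] at F2
          have h1 : (t * (t - 2)) * b = 0 := by linear_combination -F2 / 2
          rcases mul_eq_zero.1 h1 with h | h
          · exfalso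
            have : 0 < t * (t - 2) := mul_pos (by linarith) (by linarith)
            linarith
          · exact h
      exact ⟨by rw [ha, hb, mul_zero], hb⟩
  rw [hshape, key.1, key.2]
  simp

end

end Pool.Agent.Lib.BrSym
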