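import Pool.Agent.Lib.MP_97e538_al.StepC

open MvPolynomial

namespace Pool.Agent.Lib.BrSym

noncomputable section

variable {g : ℕ}

/-- the restriction to the subgroup generated by `σ_i, σ_{i+1}` is inner -/
theorem inner_pair (hg : 2 ≤ g) {k : ℕ} (hk : 2 ≤ k)
    {m : ℕ → MvPolynomial (Fin (2 * g)) ℝ} (H : Gen g k m) :
    ∀ i, i + 1 ≤ 2 * g → ∃ n : MvPolynomial (Fin (2 * g)) ℝ, n.IsHomogeneous k ∧
      m i = twist g i n - n ∧ m (i + 1) = twist g (i + 1) n - n := by
  obtain ⟨n, hn⟩ := exists_n hg (by omega : k ≠ 0) H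
  have h0 := kappa_zero hg hk H hn
  intro i
  induction i with
  | zero =>
    intro _
    have h1 := (hn 0 (by omega)).1.sub (hn 1 (by omega)).1
    obtain ⟨a, b, hab, ha, hb, hda, hdb⟩ := split01 h1 h0
    refine ⟨n 0 - a, (hn 0 (by omega)).1.sub ha, ?_, ?_⟩
    · rw [map_sub, fixed_of_dd 0 hda, (hn 0 (by omega)).2]; ring
    · have h2 : n 0 - a = n 1 + b := by linear_combination hab
      rw [h2, zero_add, map_add, fixed_of_dd 1 hdb, (hn 1 (by omega)).2]; ring
  | succ i ih =>
    intro hi
    obtain ⟨n0, hn0, e1, e2⟩ := ih (by omega)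
    -- subtract the inner cocycle
    set q := m (i + 1 + 1) - (twist g (i + 1 + 1) n0 - n0) with hq
    have hqhom : q.IsHomogeneous k :=
      (H.hom _ hi).sub ((twist_hom _ hn0).sub hn0)
    have hc := H.comm i (i + 1 + 1) (by omega) hi
    have hb := H.braid (i + 1) hi
    have q1 : twist g i q = q := by
      have h1 := twist_comm (g := g) (i := i) (j := i + 1 + 1) (by omega) hi
        (om_far (by omega)) n0
      rw [e1] at hc
      rw [hq]
      simp only [map_sub] at hc ⊢
      linear_combination hc - h1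
    have q2 : twist g (i + 1) q - twist g (i + 1 + 1) (twist g (i + 1) q) = q := by
      have h1 := twist_braid (g := g) (i := i + 1) hi n0
      rw [e2] at hb
      rw [hq]
      simp only [map_sub] at hb ⊢
      linear_combination hb - h1
    refine ⟨n0 - twist g i (twist g (i + 1) q), hn0.sub (twist_hom _ (twist_hom _ hqhom)), ?_,
      ?_⟩
    · have h1 := twist_braid (g := g) (i := i) (by omega) q
      rw [q1] at h1
      rw [e2]
      simp only [map_sub]
      linear_combination -h1
    · have h1 := twist_comm (g := g) (i := i) (j := i + 1 + 1) (by omega) hi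
        (om_far (by omega)) (twist g (i + 1) q)
      have h2 := congrArg (twist g i) q2
      rw [q1] at h2
      simp only [map_sub] at h2 ⊢
      have h3 : m (i + 1 + 1) = q + (twist g (i + 1 + 1) n0 - n0) := by rw [hq]; ring
      rw [h3]
      linear_combination -h1 - h2

/-- the set of indices with `pd_m = - sum dd_l` -/
def inLam (m l : ℕ) : Prop := m + 1 ≤ l ∧ (l - (m + 1)) % 2 = 0

instance (m l : ℕ) : Decidable (inLam m l) := by unfold inLam; infer_instance

theorem sum_inLam (F : ℕ → MvPolynomial (Fin (2 * g)) ℝ) (m : ℕ) (hm : m < 2 * g) :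
    ∑ l ∈ Finset.range (2 * g + 1), (if inLam m l then F l else 0) =
      F (m + 1) + ∑ l ∈ Finset.range (2 * g + 1), (if inLam (m + 2) l then F l else 0) := by
  have h1 : ∀ l ∈ Finset.range (2 * g + 1), (if inLam m l then F l else 0) =
      (if l = m + 1 then F (m + 1) else 0) + (if inLam (m + 2) l then F l else 0) := by
    intro l _
    by_cases h : l = m + 1
    · subst h
      have a1 : inLam m (m + 1) := ⟨by omega, by omega⟩
      have a2 : ¬ inLam (m + 2) (m + 1) := fun h => by
        obtain ⟨h1, h2⟩ := h; omega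
      rw [if_pos a1, if_pos rfl, if_neg a2, add_zero]
    · rw [if_neg h, zero_add]
      by_cases h2 : inLam m l
      · have a2 : inLam (m + 2) l := by
          obtain ⟨h3, h4⟩ := h2
          exact ⟨by omega, by omega⟩
        rw [if_pos h2, if_pos a2]
      · have a2 : ¬ inLam (m + 2) l := fun h5 => by
          obtain ⟨h3, h4⟩ := h5
          exact h2 ⟨by omega, by omega⟩
        rw [if_neg h2, if_neg a2]
  rw [Finset.sum_congr rfl h1, Finset.sum_add_distrib, Finset.sum_ite_eq',
    if_pos (Finset.mem_range.2 (by omega))]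

theorem sum_inLam_ge (F : ℕ → MvPolynomial (Fin (2 * g)) ℝ) (m : ℕ) (hm : 2 * g ≤ m) :
    ∑ l ∈ Finset.range (2 * g + 1), (if inLam m l then F l else 0) = 0 := by
  apply Finset.sum_eq_zero
  intro l hl
  have := Finset.mem_range.1 hl
  have a2 : ¬ inLam m l := fun h => by
    obtain ⟨h1, h2⟩ := h; omega
  rw [if_neg a2]

theorem pdn_eq_sum (f : MvPolynomial (Fin (2 * g)) ℝ) (m : ℕ) :
    pdn g m f = -∑ l ∈ Finset.range (2 * g + 1), (if inLam m l then dd g l f else 0) := by
  have key : ∀ d m, 2 * g ≤ m + d → pdn g m f =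
      -∑ l ∈ Finset.range (2 * g + 1), (if inLam m l then dd g l f else 0) := by
    intro d
    induction d with
    | zero =>
      intro m hm
      rw [pdn_ge (by omega), sum_inLam_ge (fun l => dd g l f) m (by omega), neg_zero]
      rfl
    | succ d ih =>
      intro m hm
      rcases Nat.lt_or_ge m (2 * g) with h | h
      · rw [sum_inLam (fun l => dd g l f) m h, neg_add, ← ih (m + 2) (by omega), dd_succ']
        ring
      · rw [pdn_ge (by omega), sum_inLam_ge (fun l => dd g l f) m (by omega), neg_zero]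
        rfl
  exact key (2 * g) m (by omega)

/-- the alternating sum of closed data of positive degree vanishes -/
theorem sum_zero_of_closed {k : ℕ} (hk : 2 ≤ k)
    {f : ℕ → MvPolynomial (Fin (2 * g)) ℝ} (hf : ∀ i, i ≤ 2 * g → (f i).IsHomogeneous (k - 1))
    (hcl : ∀ i j, i ≤ 2 * g → j ≤ 2 * g → dd g i (f j) = dd g j (f i)) :
    ∑ j ∈ Finset.range (g + 1), f (2 * j) = 0 := by
  apply eq_zero_of_pd (n := k - 1) (by omega)
  · exact IsHomogeneous.sum _ _ _ fun j hj => hf _ (by have := Finset.mem_range.1 hj; omega)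
  · intro m
    apply pd_of_dd (m0 := 0) _ m (Nat.zero_le _)
    intro l _ hl
    rw [map_sum]
    have : ∀ j ∈ Finset.range (g + 1), dd g l (f (2 * j)) = dd g (2 * j) (f l) := by
      intro j hj
      have := Finset.mem_range.1 hj
      exact hcl _ _ hl (by omega)
    rw [Finset.sum_congr rfl this, sum_dd]

/-- Poincare lemma: closed data are exact -/
theorem exact_of_closed {k : ℕ} (hk : 1 ≤ k)
    {f : ℕ → MvPolynomial (Fin (2 * g)) ℝ} (hf : ∀ i, i ≤ 2 * g → (f i).IsHomogeneous (k - 1))
    (hcl : ∀ i j, i ≤ 2 * g → j ≤ 2 * g → dd g i (f j) = dd g j (f i))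
    (hh : ∑ j ∈ Finset.range (g + 1), f (2 * j) = 0) :
    ∃ n : MvPolynomial (Fin (2 * g)) ℝ, n.IsHomogeneous k ∧
      ∀ i, i ≤ 2 * g → dd g i n = f i := by
  set F : ℕ → MvPolynomial (Fin (2 * g)) ℝ := fun m =>
    -∑ l ∈ Finset.range (2 * g + 1), (if inLam m l then f l else 0) with hF
  have hFhom : ∀ m, (F m).IsHomogeneous (k - 1) := by
    intro m
    rw [hF]
    refine (IsHomogeneous.sum _ _ _ fun l hl => ?_).neg
    split_ifs
    · exact hf _ (by have := Finset.mem_range.1 hl; omega)
    · exact isHomogeneous_zero _ _ _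
  have hFsym : ∀ i j, pdn g i (F j) = pdn g j (F i) := by
    intro i j
    have e : ∀ i j, pdn g i (F j) = ∑ l ∈ Finset.range (2 * g + 1),
        ∑ l' ∈ Finset.range (2 * g + 1),
          (if inLam j l then (if inLam i l' then dd g l' (f l) else 0) else 0) := by
      intro i j
      rw [hF]
      simp only [map_neg, map_sum]
      rw [← Finset.sum_neg_distrib]
      apply Finset.sum_congr rfl
      intro l _
      split_ifs with h
      · rw [pdn_eq_sum, neg_neg]
      · rw [map_zero, neg_zero]; simp
    rw [e i j, e j i, Finset.sum_comm]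
    apply Finset.sum_congr rfl
    intro l hl
    apply Finset.sum_congr rfl
    intro l' hl'
    have h1 := Finset.mem_range.1 hl
    have h2 := Finset.mem_range.1 hl'
    rw [hcl l l' (by omega) (by omega)]
    split_ifs <;> rfl
  set n : MvPolynomial (Fin (2 * g)) ℝ := C ((k : ℝ)⁻¹) * ∑ j : Fin (2 * g), X j * F j with hn
  have hnhom : n.IsHomogeneous k := by
    rw [hn]
    apply IsHomogeneous.C_mul
    apply IsHomogeneous.sum
    intro j _
    have := (isHomogeneous_X ℝ j).mul (hFhom j)
    rwa [show 1 + (k - 1) = k by omega] at this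
  have hpd : ∀ m, m < 2 * g → pdn g m n = F m := by
    intro m hm
    rw [hn, Derivation.leibniz, pdn_C, smul_zero, add_zero, smul_eq_mul, map_sum]
    have e1 : ∀ j : Fin (2 * g), pdn g m (X j * F j) =
        X j * pderiv j (F m) + (if j.1 = m then F m else 0) := by
      intro j
      rw [Derivation.leibniz, smul_eq_mul, smul_eq_mul, pdn_X, hFsym m j.1, pdn_lt j.2]
      split_ifs with h
      · have h' : F j.1 = F m := by rw [h]
        rw [mul_one, h']
      · rw [mul_zero]
    rw [Finset.sum_congr rfl fun j _ => e1 j, Finset.sum_add_distrib,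
      (hFhom m).sum_X_mul_pderiv, Finset.sum_eq_single (⟨m, hm⟩ : Fin (2 * g)), if_pos rfl,
      nsmul_eq_mul]
    · have e2 : (C ((k : ℝ)⁻¹) : MvPolynomial (Fin (2 * g)) ℝ) * ((k : ℕ) :
          MvPolynomial (Fin (2 * g)) ℝ) = 1 := by
        rw [← map_natCast (C : ℝ →+* MvPolynomial (Fin (2 * g)) ℝ), ← map_mul,
          inv_mul_cancel₀ (Nat.cast_ne_zero.2 (by omega)), map_one]
      have e3 : ((k - 1 : ℕ) : MvPolynomial (Fin (2 * g)) ℝ) = (k : ℕ) - 1 := by
        rw [Nat.cast_sub (by omega)]; simp
      rw [e3]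
      linear_combination F m * e2
    · intro j _ hj
      rw [if_neg (fun h => hj (Fin.ext h))]
    · intro h; exact absurd (Finset.mem_univ _) h
  have hpd' : ∀ m, pdn g m n = F m := by
    intro m
    rcases Nat.lt_or_ge m (2 * g) with h | h
    · exact hpd m h
    · rw [pdn_ge h, hF]
      simp only
      rw [sum_inLam_ge f m h, neg_zero]; rfl
  refine ⟨n, hnhom, fun i hi => ?_⟩
  rcases Nat.eq_zero_or_pos i with h | h
  · subst h
    rw [dd_zero', hpd' 1, hF]
    simp only
    have e1 : ∀ l ∈ Finset.range (2 * g + 1), (if inLam 1 l then f l else 0) =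
        (if l % 2 = 0 then f l else 0) - (if l = 0 then f 0 else 0) := by
      intro l _
      by_cases h : l = 0
      · subst h
        have a2 : ¬ inLam 1 0 := fun h => by
          obtain ⟨h1, h2⟩ := h; omega
        rw [if_neg a2, if_pos (by norm_num), sub_self]
      · rw [if_neg h, sub_zero]
        by_cases h2 : l % 2 = 0
        · have a2 : inLam 1 l := ⟨by omega, by omega⟩
          rw [if_pos a2, if_pos h2]
        · have a2 : ¬ inLam 1 l := fun h => by
            obtain ⟨h1, h2⟩ := h; omega
          rw [if_neg a2, if_neg h2]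
    have e2 : ∑ l ∈ Finset.range (2 * g + 1), (if l % 2 = 0 then f l else 0) =
        ∑ j ∈ Finset.range (g + 1), f (2 * j) := by
      have : ∀ r : ℕ, ∑ l ∈ Finset.range (2 * r + 1), (if l % 2 = 0 then f l else 0) =
          ∑ j ∈ Finset.range (r + 1), f (2 * j) := by
        intro r
        induction r with
        | zero => simp
        | succ r ih =>
          rw [show 2 * (r + 1) + 1 = 2 * r + 1 + 1 + 1 by ring, Finset.sum_range_succ,
            Finset.sum_range_succ, ih, Finset.sum_range_succ _ (r + 1), if_neg (by omega),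
            if_pos (by omega), add_zero]
          congr 2
      exact this g
    rw [Finset.sum_congr rfl e1, Finset.sum_sub_distrib, e2, hh, Finset.sum_ite_eq',
      if_pos (Finset.mem_range.2 (by omega))]
    ring
  · obtain ⟨j, rfl⟩ : ∃ j, i = j + 1 := ⟨i - 1, by omega⟩
    rw [dd_succ', hpd', hpd', hF]
    simp only
    rw [sum_inLam f j (by omega)]
    ring

/-- generator form of the vanishing of `H^1` for `k ≥ 2` -/
theorem gen_inner (hg : 2 ≤ g) {k : ℕ} (hk : 2 ≤ k)
    {m : ℕ → MvPolynomial (Fin (2 * g)) ℝ} (H : Gen g k m) :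
    ∃ n : MvPolynomial (Fin (2 * g)) ℝ, n.IsHomogeneous k ∧
      ∀ i, i ≤ 2 * g → m i = twist g i n - n := by
  obtain ⟨n, hn⟩ := exists_n hg (by omega : k ≠ 0) H
  have hn2 : ∀ i, i ≤ 2 * g → m i = twist g i (n i) - n i := fun i hi => (hn i hi).2
  have hp := inner_pair hg hk H
  have hadj : ∀ i, i + 1 ≤ 2 * g → dd g i (dd g (i + 1) (n (i + 1))) =
      dd g (i + 1) (dd g i (n i)) := by
    intro i hi
    obtain ⟨q, _, e1, e2⟩ := hp i hi
    have h1 : dd g i (n i - q) = 0 := by
      apply dd_of_fixed (by omega) (by omega)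
      rw [map_sub]
      linear_combination e1 - hn2 i (by omega)
    have h2 : dd g (i + 1) (n (i + 1) - q) = 0 := by
      apply dd_of_fixed (by omega) (by omega)
      rw [map_sub]
      linear_combination e2 - hn2 (i + 1) (by omega)
    rw [map_sub, sub_eq_zero] at h1 h2
    rw [h1, h2, dd_dd_comm]
  have hcl : ∀ i j, i ≤ j → j ≤ 2 * g → dd g i (dd g j (n j)) = dd g j (dd g i (n i)) := by
    intro i j hij hj
    rcases Nat.lt_or_ge (i + 1) j with h | h
    · rw [← mixed_comm hg H hn2 (by omega) hj, dd_dd_comm]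
    · rcases Nat.eq_or_lt_of_le hij with h2 | h2
      · rw [h2]
      · have : j = i + 1 := by omega
        subst this
        exact hadj i hj
  have hcl2 : ∀ i j, i ≤ 2 * g → j ≤ 2 * g →
      dd g i (dd g j (n j)) = dd g j (dd g i (n i)) := by
    intro i j hi hj
    rcases Nat.le_total i j with h | h
    · exact hcl i j h hj
    · exact (hcl j i h hi).symm
  have hfh : ∀ i, i ≤ 2 * g → (dd g i (n i)).IsHomogeneous (k - 1) :=
    fun i hi => dd_hom i (hn i hi).1
  obtain ⟨N, hN, hd⟩ := exact_of_closed (by omega : 1 ≤ k) (f := fun i => dd g i (n i)) hfh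
    hcl2 (sum_zero_of_closed hk hfh hcl2)
  refine ⟨N, hN, fun i hi => ?_⟩
  have h1 : dd g i (N - n i) = 0 := by rw [map_sub, hd i hi, sub_self]
  have h2 := fixed_of_dd i h1
  rw [map_sub] at h2
  rw [hn2 i hi]
  linear_combination -h2

end

end Pool.Agent.Lib.BrSym
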